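import Pool.Agent.NRX.Targets
import Pool.Agent.NRR.Final

/-!
# Hereditary classes: labelled graphs and isomorphism types
-/

set_option autoImplicit false

open Finset Classical

namespace Pool.Agent.NRX

open Pool.Agent Pool.Agent.NRW

theorem final_both (h_SUR : NRR.T_SUR) (h_INR : NRR.T_INR) (h_BN1 : NRR.T_BN1)
    (h_HCU : NRW.T_HCU) (h_FIU : T_FIU) : ∃ A : ℝ, 0 < A ∧
    (∀ C : HER47.Cls, HER47.Her C → ∀ n : ℕ, 3 ≤ n →
      (HER47.bn C n : ℝ) ≤ (n : ℝ) ^ A * (HER47.cn C (n - 1) : ℝ) ∧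
      ((btyp C n).ncard : ℝ) ≤ (n : ℝ) ^ A * ((typ C (n - 1)).ncard : ℝ)) ∧
    (∀ C : HER47.Cls, HER47.Her C →
      ((∀ (V W : Type) [Finite V] [Finite W] (G : SimpleGraph V) (H : SimpleGraph W),
        C V G → C W H → C (V ⊕ W) (G ⊕g H)) ∨
      (∀ (V W : Type) [Finite V] [Finite W] (G : SimpleGraph V) (H : SimpleGraph W),
        C V G → C W H → C (V ⊕ W) ((Gᶜ ⊕g Hᶜ)ᶜ))) →
      (∃ N : ℕ, ∀ n : ℕ, N ≤ n → NRR.Big3 A C n) → ∃ N : ℕ, ∀ n : ℕ, N ≤ n →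
        (2 : ℝ) ^ ((n : ℝ) / Real.logb 2 n ^ 3) * (HER47.bn C n : ℝ) ≤ (HER47.cn C n : ℝ) ∧
        (2 : ℝ) ^ ((n : ℝ) / Real.logb 2 n ^ 3) * ((btyp C n).ncard : ℝ) ≤
          ((typ C n).ncard : ℝ)) ∧
    (∀ C : HER47.Cls, HER47.Her C → (∀ N : ℕ, ∃ n : ℕ, N ≤ n ∧ NRR.Big3 A C n) →
      (∀ N : ℕ, ∃ n : ℕ, N ≤ n ∧
        (2 : ℝ) ^ ((n : ℝ) / Real.logb 2 n ^ 3) * (HER47.bn C n : ℝ) ≤
          (HER47.cn C n : ℝ)) ∧
      (∀ N : ℕ, ∃ n : ℕ, N ≤ n ∧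
        (2 : ℝ) ^ ((n : ℝ) / Real.logb 2 n ^ 3) * ((btyp C n).ncard : ℝ) ≤
          ((typ C n).ncard : ℝ))) := by
  obtain ⟨A1, h1, h2, h3, h4⟩ := NRR.final_three h_SUR h_INR h_BN1
  obtain ⟨A2, h5⟩ := h_HCU
  obtain ⟨A3, k3, h6, h7⟩ := h_FIU
  have k2 : (0 : ℝ) ≤ A2 := Nat.cast_nonneg _
  have hle : A1 ≤ A1 + A2 + A3 := by linarith
  have hle3 : A3 ≤ A1 + A2 + A3 := by linarith
  refine ⟨A1 + A2 + A3, by positivity, ?_, ?_, ?_⟩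
  · intro C hC n hn
    constructor
    · refine (h2 C hC n (by omega)).trans (mul_le_mul_of_nonneg_right ?_ (Nat.cast_nonneg _))
      refine Real.rpow_le_rpow_of_exponent_le ?_ hle
      exact_mod_cast (by omega : 1 ≤ n)
    · obtain ⟨m, rfl⟩ : ∃ m, n = m + 1 := ⟨n - 1, by omega⟩
      have h := h5 C hC m (by omega)
      rw [Nat.add_sub_cancel]
      have h' : ((btyp C (m + 1)).ncard : ℝ) ≤ ((m + 1 : ℕ) : ℝ) ^ (A2 : ℝ) *
          ((typ C m).ncard : ℝ) := by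
        rw [Real.rpow_natCast]
        exact_mod_cast h
      refine h'.trans (mul_le_mul_of_nonneg_right ?_ (Nat.cast_nonneg _))
      refine Real.rpow_le_rpow_of_exponent_le ?_ (by linarith)
      exact_mod_cast (by omega : 1 ≤ m + 1)
  · intro C hC hU hB
    obtain ⟨N, hN⟩ := hB
    obtain ⟨N1, h8⟩ := h3 C hC hU ⟨N, fun n hn => NRR.Big3_mono hle (hN n hn)⟩
    obtain ⟨N2, h9⟩ := h6 C hC hU ⟨N, fun n hn => NRR.Big3_mono hle3 (hN n hn)⟩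
    exact ⟨max N1 N2, fun n hn => ⟨h8 n ((le_max_left _ _).trans hn),
      h9 n ((le_max_right _ _).trans hn)⟩⟩
  · intro C hC hB
    constructor
    · refine h4 C hC fun N => ?_
      obtain ⟨n, hn, h⟩ := hB N
      exact ⟨n, hn, NRR.Big3_mono hle h⟩
    · refine h7 C hC fun N => ?_
      obtain ⟨n, hn, h⟩ := hB N
      exact ⟨n, hn, NRR.Big3_mono hle3 h⟩

end Pool.Agent.NRX
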