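import Pool.Agent.NRX.Targets
import Pool.Agent.NRR.P_ALR

/-!
# NRX: types of non-reconstructible members of a hereditary class
-/

set_option autoImplicit false

open Finset Classical

namespace Pool.Agent.NRX

open Pool.Agent Pool.Agent.Lib.Recon Pool.Agent.RNB Pool.Agent.NRC Pool.Agent.NRM
  Pool.Agent.NRP Pool.Agent.NRR Pool.Agent.NRW

namespace ALU_

theorem nc_bU {α ι : Type*} [Finite α] (s : Finset ι) (f : ι → Set α) :
    (⋃ i ∈ s, f i).ncard ≤ ∑ i ∈ s, (f i).ncard := by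
  induction s using Finset.induction_on with
  | empty => simp
  | insert a s ha ih =>
    rw [Finset.sum_insert ha, Finset.set_biUnion_insert]
    exact (Set.ncard_union_le _ _).trans (Nat.add_le_add_left ih _)

end ALU_

open ALU_ NRR.ALR_ in
theorem p_ALU (h1 : T_AVU) (h2 : T_DOU) (h3 : NRR.T_NBR) (h4 : NRM.T_MAX) : T_ALU := by
  obtain ⟨n1, h1⟩ := h1
  obtain ⟨D, n2, hD⟩ := h3
  generalize KK = K at h1
  refine ⟨D + K + 3, max (max n1 n2) (2 ^ 24), fun C hC n hn => ?_⟩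
  have hn1 : n1 ≤ n := ((le_max_left _ _).trans (le_max_left _ _)).trans hn
  have hn3 : n2 ≤ n := ((le_max_right _ _).trans (le_max_left _ _)).trans hn
  have hn2 : 2 ^ 24 ≤ n := (le_max_right _ _).trans hn
  have hk : 1 ≤ kR n := by
    unfold kR
    have h5 := pL_bd hn2
    have h6 := one_L n
    rw [Nat.le_div_iff_mul_le (by positivity)]
    omega
  have hkn : kR n ≤ n := Nat.div_le_self _ _
  have hn0 : 1 ≤ n := hk.trans hkn
  have hcov : btyp C n ⊆
      {S | ∃ G : SimpleGraph (Fin n), C (Fin n) G ∧ ¬ HER47.Rec G ∧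
        (∃ Y : Finset (Fin n), Y.card ≤ kR n ∧ Far G K Y) ∧
        S = {G' : SimpleGraph (Fin n) | Nonempty (G ≃g G')}} ∪
      ⋃ r ∈ (Icc (kR n) n).erase (kR n),
        {S | ∃ G : SimpleGraph (Fin n), C (Fin n) G ∧
          (∃ M : Finset (Fin n), M.card = n - r ∧ HER47.Dom K G M) ∧
          S = {G' : SimpleGraph (Fin n) | Nonempty (G ≃g G')}} := by
    rintro S ⟨G, hG, hR, hS⟩
    obtain ⟨M, Y, hY, hM, hYF⟩ := max2 h4 G K
    rw [Fintype.card_fin] at hY
    by_cases hc : Y.card ≤ kR n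
    · left
      exact ⟨G, hG, hR, ⟨Y, hc, hYF⟩, hS⟩
    · right
      refine Set.mem_biUnion (x := Y.card) ?_ ⟨G, hG, ⟨M, by omega, hM⟩, hS⟩
      show Y.card ∈ ((Icc (kR n) n).erase (kR n) : Finset ℕ)
      rw [Finset.mem_erase, Finset.mem_Icc]
      omega
  refine (Set.ncard_le_ncard hcov (Set.toFinite _)).trans ((Set.ncard_union_le _ _).trans ?_)
  rw [← Finset.add_sum_erase _ _ (Finset.mem_Icc.2 ⟨le_rfl, hkn⟩ : kR n ∈ Icc (kR n) n)]
  refine Nat.add_le_add ((h1 C hC n hn1).trans (bound1 D K _ n _ _ hk (hD n hn3))) ?_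
  refine (nc_bU _ _).trans (Finset.sum_le_sum fun r hr => ?_)
  rw [Finset.mem_erase, Finset.mem_Icc] at hr
  refine (h2 C hC n K r hr.2.2).trans (le_trans ?_ (bound2 D K n r (typ C (n - r)).ncard))
  exact Nat.le_mul_of_pos_left _ (Nat.pow_pos (by omega))

end Pool.Agent.NRX
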