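import Pool.Agent.NRX.Targets
import Pool.Agent.NRR.P_AVR
import Pool.Agent.NRW.P_HCU

/-!
# NRX, target AVU
-/

set_option autoImplicit false

open Finset Classical

namespace Pool.Agent.NRX

open Pool.Agent Pool.Agent.Lib.Recon Pool.Agent.RNB Pool.Agent.NRC Pool.Agent.NRM
  Pool.Agent.NRP Pool.Agent.NRR Pool.Agent.NRW

namespace AVU_

/-- `mem_filter` for arbitrary instances -/
theorem mf {α : Type} {p : α → Prop} {i : DecidablePred p} {s : Finset α} {a : α} :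
    a ∈ @Finset.filter α p i s ↔ a ∈ s ∧ p a := Finset.mem_filter

/-- cardinalities of filters for arbitrary instances -/
theorem cf {α : Type} {p q : α → Prop} {i : DecidablePred p} {j : DecidablePred q}
    {s : Finset α} (h : ∀ a, p a → q a) :
    (@Finset.filter α p i s).card ≤ (@Finset.filter α q j s).card :=
  Finset.card_le_card fun _ ha => mf.2 ⟨(mf.1 ha).1, h _ (mf.1 ha).2⟩

end AVU_

open AVU_

theorem p_AVU (h1 : T_GAV) (h2 : T_LSZ) (h3 : NRR.T_HLR) (h4 : T_FXM) (h5 : T_FXZ)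
    (h6 : T_EQM) (h7 : T_EQZ) : T_AVU := by
  obtain ⟨n1, hHLR⟩ := h3
  obtain ⟨n2, hNPA⟩ := Pool.Agent.NRC.p_NPA
  refine ⟨max (max n1 n2) (2 ^ 24), ?_⟩
  intro C hC n hn
  have hn1 : n1 ≤ n := ((le_max_left _ _).trans (le_max_left _ _)).trans hn
  have hn2 : n2 ≤ n := ((le_max_right _ _).trans (le_max_left _ _)).trans hn
  have hn4 : 2 ^ 24 ≤ n := (le_max_right _ _).trans hn
  have hn3 : 1 ≤ n := le_trans (by norm_num) hn4
  obtain ⟨hN, -⟩ := hNPA n hn2
  have hk1 : 1 ≤ kR n := NRR.AVR_.kR_pos hn4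
  have hk : kR n ≤ n := Nat.div_le_self _ _
  have hcard : Fintype.card (Fin n) = n := Fintype.card_fin n
  obtain ⟨Z0, G, hZ0, hG⟩ := h2 C hC n (kR n) hk
  set SS : Set (Set (SimpleGraph (Fin n))) := {S | ∃ G : SimpleGraph (Fin n),
    C (Fin n) G ∧ ¬ HER47.Rec G ∧ (∃ Y : Finset (Fin n), Y.card ≤ kR n ∧ Far G KK Y) ∧
    S = {G' : SimpleGraph (Fin n) | Nonempty (G ≃g G')}} with hSS
  have hfin : Fintype SS := Fintype.ofFinite _
  have hfin2 : Fintype {S // S ∈ typ C (n - kR n)} := Fintype.ofFinite _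
  have hch : ∀ i : SS, ∃ G : SimpleGraph (Fin n), C (Fin n) G ∧ ¬ HER47.Rec G ∧
      (∃ Y : Finset (Fin n), Y.card ≤ kR n ∧ Far G KK Y) ∧
      i.1 = {G' : SimpleGraph (Fin n) | Nonempty (G ≃g G')} := fun i => i.2
  choose H hHC hHR hHY hHS using hch
  have hpn : Pni H := by
    rintro i j hij ⟨α, hα⟩
    apply hij
    apply Subtype.ext
    rw [hHS i, hHS j]
    exact NRW.HCU_.cls_eq α hα
  have h := h1 (Fin n) SS {S // S ∈ typ C (n - kR n)} G Z0 H (pN n) (XR n ^ kR n)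
    (fun K A Z => GdM K (pg n) (M1 n) A Z ∨ CdM K (pg n) (pg n) (q2 n) (d1 n) (M2 n) A Z)
    hN ⟨⟨0, hn3⟩⟩ (fun i Z hZ => hG (H i) (hHC i) Z (hZ.trans hZ0)) hpn ?_ ?_ ?_
  · have e1 : Fintype.card SS = SS.ncard := by
      rw [← Nat.card_eq_fintype_card, Nat.card_coe_set_eq]
    have e2 : Fintype.card {S // S ∈ typ C (n - kR n)} = (typ C (n - kR n)).ncard := by
      rw [← Nat.card_eq_fintype_card]
      exact Nat.card_coe_set_eq _
    rw [e1, e2, hcard, hZ0, mul_assoc] at h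
    exact h
  · rintro F K σ A Z hσ (h | h)
    · exact Or.inl (h6 (Fin n) F K σ _ _ A Z hσ h)
    · exact Or.inr (h7 (Fin n) F K σ _ _ _ _ _ A Z hσ h)
  · intro F A
    have ha := h4 n (pg n) (M1 n) F A Z0
    have hb := h5 n (pg n) (pg n) (q2 n) (d1 n) (M2 n) F A Z0
    refine (card_le_card ?_).trans ((card_union_le _ _).trans ((add_le_add ha hb).trans ?_))
    · intro K hK
      obtain ⟨-, k1, k2⟩ := mf.1 hK
      rcases k2 with k2 | k2
      · exact mem_union_left _ (mf.2 ⟨mem_univ _, k1, k2⟩)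
      · exact mem_union_right _ (mf.2 ⟨mem_univ _, k1, k2⟩)
    · rw [hZ0]
      exact NRR.AVR_.pow_add_le _ _ _ hk1
  · intro i
    obtain ⟨Y, hY, hF⟩ := hHY i
    have h := hHLR (Fin n) (H i) (by rw [hcard]; exact hn1) (hHR i) Y
      (by rw [hcard]; exact hY) hF
    have gen : ∀ m : ℕ, m = n → (Fintype.card (Fin (pN m) × (Fin (pN m) → Fin n)) ≤
        2 * (univ.filter (fun p : Fin (pN m) × (Fin (pN m) → Fin n) =>
          ∃ Z : Finset (Fin n), Z.card = kR m ∧ (GdM (H i) (pg m) (M1 m) (Bi ∅ p.2 p.1) Z ∨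
            CdM (H i) (pg m) (pg m) (q2 m) (d1 m) (M2 m) (Bi ∅ p.2 p.1) Z))).card) →
        Fintype.card (Fin (pN n) × (Fin (pN n) → Fin n)) ≤
          2 * (univ.filter (fun p : Fin (pN n) × (Fin (pN n) → Fin n) =>
            ∃ Z : Finset (Fin n), Z.card = Z0.card ∧ (GdM (H i) (pg n) (M1 n)
              (Bi ∅ p.2 p.1) Z ∨ CdM (H i) (pg n) (pg n) (q2 n) (d1 n) (M2 n)
              (Bi ∅ p.2 p.1) Z))).card := by
      intro m hm h
      subst hm
      rw [hZ0]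
      exact h
    refine (gen _ hcard (h.trans (Nat.mul_le_mul_left 2 ?_))).trans
      (Nat.mul_le_mul_left 2 (cf fun p hp => hp))
    exact cf fun p hp => hp

end Pool.Agent.NRX
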