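import Pool.Agent.NRX.Targets

/-!
# NRX, block DOU: types dominated by a set
-/

set_option autoImplicit false

open Finset Classical

namespace Pool.Agent.NRX

open Pool.Agent Pool.Agent.Lib.Recon Pool.Agent.RNB Pool.Agent.NRC Pool.Agent.NRM
  Pool.Agent.NRP Pool.Agent.NRR Pool.Agent.NRW

namespace DOU_

lemma mem_img {V : Type} (σ : V ≃ V) {Z Z0 : Finset V} (h : Z.image σ = Z0) (x : V) :
    x ∈ Z0 ↔ ∃ y ∈ Z, σ y = x := by
  rw [← h, mem_image]

lemma ds_comap {n : ℕ} (G : SimpleGraph (Fin n)) (σ : Fin n ≃ Fin n) (v u : Fin n) :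
    HER47.ds (G.comap σ.symm) v (σ u) = (HER47.ds G (σ.symm v) u).map σ.toEmbedding := by
  ext w
  rw [HER47.Base_.mem_ds, Finset.mem_map_equiv, HER47.Base_.mem_ds, SimpleGraph.comap_adj,
    SimpleGraph.comap_adj, Equiv.symm_apply_apply, σ.symm.injective.ne_iff]
  have h1 : w ≠ σ u ↔ σ.symm w ≠ u := by
    rw [ne_eq, ne_eq, Equiv.symm_apply_eq]
  rw [h1]

lemma dom_comap {n K : ℕ} {G : SimpleGraph (Fin n)} {M : Finset (Fin n)} (σ : Fin n ≃ Fin n)
    (h : HER47.Dom K G M) {M' : Finset (Fin n)} (hM : ∀ x, σ.symm x ∈ M ↔ x ∈ M') :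
    HER47.Dom K (G.comap σ.symm) M' := by
  intro v hv
  obtain ⟨u, hu, hd⟩ := h (σ.symm v) (fun h' => hv ((hM v).1 h'))
  refine ⟨σ u, ?_, ?_⟩
  · rw [← hM, Equiv.symm_apply_apply]
    exact hu
  · rw [ds_comap, Finset.card_map]
    exact hd

/-- the isomorphism of a graph and its transport -/
def isoC {n : ℕ} (G : SimpleGraph (Fin n)) (σ : Fin n ≃ Fin n) : G.comap σ.symm ≃g G where
  toEquiv := σ.symm
  map_rel_iff' := Iff.rfl

lemma cls_eq {n : ℕ} {G H : SimpleGraph (Fin n)} (e : H ≃g G) :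
    {G' : SimpleGraph (Fin n) | Nonempty (G ≃g G')} =
      {G' : SimpleGraph (Fin n) | Nonempty (H ≃g G')} := by
  ext G'
  constructor
  · rintro ⟨f⟩
    exact ⟨e.trans f⟩
  · rintro ⟨f⟩
    exact ⟨e.symm.trans f⟩

end DOU_

open DOU_ in
theorem p_DOU (h1 : T_LSZ) (h2 : T_FXD) : T_DOU := by
  intro C hC n K r hr
  obtain ⟨Z0, Gj, hZ0, hG⟩ := h1 C hC n r hr
  have : Fintype {S // S ∈ typ C (n - r)} := Fintype.ofFinite _
  obtain ⟨T, hTdef⟩ : ∃ T : {S // S ∈ typ C (n - r)} → Finset (SimpleGraph (Fin n)),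
      T = fun j => univ.filter (fun G : SimpleGraph (Fin n) =>
        (∀ x y, x ∈ Z0ᶜ → y ∈ Z0ᶜ → (G.Adj x y ↔ (Gj j).Adj x y)) ∧ HER47.Dom K G Z0ᶜ) :=
    ⟨_, rfl⟩
  have hT : ∀ j, (T j).card ≤ (2 * n * (n + 1) ^ K) ^ r := by
    intro j
    have h3 := h2 n K (Gj j) Z0ᶜ
    have h4 : n - Z0ᶜ.card = r := by
      rw [card_compl, Fintype.card_fin, hZ0]
      omega
    rw [h4] at h3
    rw [hTdef]
    exact h3
  obtain ⟨f, hf⟩ : ∃ f : SimpleGraph (Fin n) → Set (SimpleGraph (Fin n)),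
      f = fun G => {G' : SimpleGraph (Fin n) | Nonempty (G ≃g G')} := ⟨_, rfl⟩
  have hsub : {S | ∃ G : SimpleGraph (Fin n), C (Fin n) G ∧
      (∃ M : Finset (Fin n), M.card = n - r ∧ HER47.Dom K G M) ∧
      S = {G' : SimpleGraph (Fin n) | Nonempty (G ≃g G')}} ⊆
      (((univ.biUnion T).image f : Finset (Set (SimpleGraph (Fin n)))) :
        Set (Set (SimpleGraph (Fin n)))) := by
    rintro S ⟨G, hCG, ⟨M, hM, hdom⟩, rfl⟩
    have hMc : Mᶜ.card = r := by
      rw [card_compl, Fintype.card_fin, hM]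
      omega
    obtain ⟨j, σ, hσ, hadj⟩ := hG G hCG Mᶜ hMc
    have hZ : ∀ x, x ∈ Z0 ↔ ∃ y ∈ Mᶜ, σ y = x := fun x => mem_img σ hσ x
    have hmem : ∀ x, σ.symm x ∈ M ↔ x ∈ Z0ᶜ := by
      intro x
      rw [mem_compl, hZ]
      constructor
      · rintro hx ⟨y, hy, rfl⟩
        rw [Equiv.symm_apply_apply] at hx
        exact (mem_compl.1 hy) hx
      · intro hx
        by_contra h
        exact hx ⟨σ.symm x, mem_compl.2 h, Equiv.apply_symm_apply _ _⟩
    rw [mem_coe, mem_image]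
    refine ⟨G.comap σ.symm, ?_, ?_⟩
    · rw [mem_biUnion]
      refine ⟨j, mem_univ _, ?_⟩
      rw [hTdef]
      simp only [mem_filter, mem_univ, true_and]
      refine ⟨?_, dom_comap σ hdom hmem⟩
      intro x y hx hy
      have hx' : σ.symm x ∉ Mᶜ := by
        rw [mem_compl, not_not]
        exact (hmem x).2 hx
      have hy' : σ.symm y ∉ Mᶜ := by
        rw [mem_compl, not_not]
        exact (hmem y).2 hy
      have h5 := hadj (σ.symm x) (σ.symm y) hx' hy'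
      rw [Equiv.apply_symm_apply, Equiv.apply_symm_apply] at h5
      rw [SimpleGraph.comap_adj]
      exact h5
    · rw [hf]
      exact (cls_eq (isoC G σ)).symm
  have h6 : (typ C (n - r)).ncard = (univ : Finset {S // S ∈ typ C (n - r)}).card := by
    rw [Finset.card_univ, ← Nat.card_eq_fintype_card]
    rfl
  rw [h6]
  refine (Set.ncard_le_ncard hsub (Finset.finite_toSet _)).trans ?_
  rw [Set.ncard_coe_finset]
  refine card_image_le.trans ?_
  exact card_biUnion_le_card_mul _ _ _ fun j _ => hT j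

end Pool.Agent.NRX
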