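import Pool.Agent.NRX.Targets
import Pool.Agent.NRC.P_EQV

/-!
# NRX, EQM: invariance of the codes `GdM` under isomorphisms
-/

set_option autoImplicit false

open Finset Classical

namespace Pool.Agent.NRX

open Pool.Agent Pool.Agent.Lib.Recon Pool.Agent.RNB Pool.Agent.NRC Pool.Agent.NRM
  Pool.Agent.NRP Pool.Agent.NRR Pool.Agent.NRW

namespace EQM_

open Pool.Agent.NRC.EQV_

variable {V : Type} [Fintype V]

theorem sz_im {H K : SimpleGraph V} {σ : V ≃ V} (h : ∀ x y, H.Adj x y ↔ K.Adj (σ x) (σ y))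
    (A Z : Finset V) (z y : V) :
    sz K (A.image σ) (Z.image σ) (σ z) (σ y) = (sz H A Z z y).image σ := by
  unfold sz
  rw [← Finset.image_insert, cl_im h, Finset.image_sdiff _ _ σ.injective]

theorem card_sz {H K : SimpleGraph V} {σ : V ≃ V} (h : ∀ x y, H.Adj x y ↔ K.Adj (σ x) (σ y))
    (A Z : Finset V) (z y : V) :
    (sz K (A.image σ) (Z.image σ) (σ z) (σ y)).card = (sz H A Z z y).card := by
  rw [sz_im h, Finset.card_image_of_injective _ σ.injective]

theorem Ars_im {H K : SimpleGraph V} {σ : V ≃ V} (h : ∀ x y, H.Adj x y ↔ K.Adj (σ x) (σ y))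
    (g : ℕ) (A Z : Finset V) (y z : V) :
    Ars K g (A.image σ) (Z.image σ) (σ y) (σ z) ↔ Ars H g A Z y z := by
  unfold Ars
  rw [mem_im, mem_im, mem_im, mem_im, card_sz h, σ.injective.ne_iff]

theorem reach_im {H K : SimpleGraph V} {σ : V ≃ V} (h : ∀ x y, H.Adj x y ↔ K.Adj (σ x) (σ y))
    (g : ℕ) (A Z : Finset V) (w y : V) :
    Relation.ReflTransGen (Ars K g (A.image σ) (Z.image σ)) (σ w) (σ y) ↔
      Relation.ReflTransGen (Ars H g A Z) w y := by
  constructor
  · intro h1
    have h2 : Relation.ReflTransGen (Ars H g A Z) (σ.symm (σ w)) (σ.symm (σ y)) := by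
      refine Relation.ReflTransGen.lift σ.symm (fun a b hab => ?_) _ _ h1
      show Ars H g A Z (σ.symm a) (σ.symm b)
      rw [← Ars_im h g A Z, σ.apply_symm_apply, σ.apply_symm_apply]
      exact hab
    rwa [σ.symm_apply_apply, σ.symm_apply_apply] at h2
  · intro h1
    exact Relation.ReflTransGen.lift σ (fun a b hab => (Ars_im h g A Z a b).2 hab) _ _ h1

theorem BRs_im {H K : SimpleGraph V} {σ : V ≃ V} (h : ∀ x y, H.Adj x y ↔ K.Adj (σ x) (σ y))
    (g : ℕ) (A Z : Finset V) (w : V) :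
    BRs K g (A.image σ) (Z.image σ) (σ w) = (BRs H g A Z w).image σ := by
  ext y
  obtain ⟨y, rfl⟩ := σ.surjective y
  rw [mem_im]
  simp only [BRs, Finset.mem_filter, Finset.mem_univ, true_and]
  exact reach_im h g A Z w y

end EQM_

open Pool.Agent.NRC.EQV_ EQM_ in
theorem p_EQM : T_EQM := by
  intro V _ H K σ g M A Z h hG
  obtain ⟨hv, w, u1, u2, b, S, hC⟩ := hG
  refine ⟨?_, fun v => σ (w (σ.symm v)), fun v => σ (u1 (σ.symm v)), fun v => σ (u2 (σ.symm v)),
    fun v => b (σ.symm v), fun v => (S (σ.symm v)).image σ, ?_⟩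
  · intro v hvZ
    obtain ⟨v, rfl⟩ := σ.surjective v
    rw [mem_im] at hvZ ⊢
    exact hv v hvZ
  · intro v hvZ
    obtain ⟨v, rfl⟩ := σ.surjective v
    rw [mem_im] at hvZ
    obtain ⟨h1, h2, h3, h4, h5, h6, h7⟩ := hC v hvZ
    simp only [Equiv.symm_apply_apply]
    refine ⟨?_, ?_, ?_, ?_, ?_, ?_, ?_⟩
    · rwa [mem_im]
    · rwa [mem_im]
    · rwa [mem_im]
    · rw [BRs_im h, Finset.card_image_of_injective _ σ.injective]
      exact h4
    · rw [BRs_im h]
      exact Finset.image_subset_image h5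
    · intro z hz
      obtain ⟨z, rfl⟩ := σ.surjective z
      rw [mem_im] at hz
      have h8 := h6 z hz
      rw [← h z v, BRs_im h, h8]
      simp only [mem_im, ← h, card_sz h, σ.injective.eq_iff]
    · intro v' hv' hne
      obtain ⟨v', rfl⟩ := σ.surjective v'
      rw [mem_im] at hv'
      have hne' : v' ≠ v := fun e => hne (by rw [e])
      have h8 := h7 v' hv' hne'
      rw [← h v' v, h8]
      simp only [Equiv.symm_apply_apply, ← h, card_sz h]

end Pool.Agent.NRX
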