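import Pool.Agent.NRX.Targets
import Pool.Agent.NRQ.P_EQQ

/-!
# NRX: EQZ (MP_552896_co), invariance of `CdM`
-/

set_option autoImplicit false

open Finset Classical

namespace Pool.Agent.NRX

open Pool.Agent Pool.Agent.Lib.Recon Pool.Agent.RNB Pool.Agent.NRC Pool.Agent.NRM
  Pool.Agent.NRP Pool.Agent.NRR Pool.Agent.NRW

namespace EQZ_

open Pool.Agent.NRQ.EQQ_

variable {V : Type} [Fintype V]

theorem sz_im {H K : SimpleGraph V} {σ : V ≃ V} (h : ∀ x y, H.Adj x y ↔ K.Adj (σ x) (σ y))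
    (A Z : Finset V) (z y : V) :
    sz K (A.image σ) (Z.image σ) (σ z) (σ y) = (sz H A Z z y).image σ := by
  unfold sz
  rw [← Finset.image_insert, cl_im h, Finset.image_sdiff _ _ σ.injective]

theorem inz_im {H K : SimpleGraph V} {σ : V ≃ V} (h : ∀ x y, H.Adj x y ↔ K.Adj (σ x) (σ y))
    (k : ℕ) (A Z : Finset V) (y : V) :
    inz K k (A.image σ) (Z.image σ) (σ y) = (inz H k A Z y).image σ := by
  ext x
  obtain ⟨x, rfl⟩ := σ.surjective x
  rw [mem_im]
  simp only [inz, Finset.mem_filter, Finset.mem_univ, true_and, mem_im, ne_im, sz_im h, card_im]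

theorem EEz_im {H K : SimpleGraph V} {σ : V ≃ V} (h : ∀ x y, H.Adj x y ↔ K.Adj (σ x) (σ y))
    (g : ℕ) (A Z : Finset V) :
    EEz K g (A.image σ) (Z.image σ) = (EEz H g A Z).image σ := by
  ext x
  obtain ⟨x, rfl⟩ := σ.surjective x
  rw [mem_im]
  simp only [EEz, Finset.mem_filter, Finset.mem_univ, true_and, mem_im]
  refine and_congr Iff.rfl (and_congr Iff.rfl ?_)
  rw [ex_im σ]
  refine exists_congr fun y => ?_
  rw [ex_im σ]
  refine exists_congr fun y' => ?_
  simp only [mem_im, ne_im, cl_im h, sz_im h, card_im, ← h]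

theorem rcz_im {H K : SimpleGraph V} {σ : V ≃ V} (h : ∀ x y, H.Adj x y ↔ K.Adj (σ x) (σ y))
    (g : ℕ) (A Z : Finset V) (y : V) :
    rcz K g (A.image σ) (Z.image σ) (σ y) = (rcz H g A Z y).image σ := by
  unfold rcz
  rw [EEz_im h, ← Finset.image_union, cl_im h, Finset.image_sdiff _ _ σ.injective]

theorem dcz {H K : SimpleGraph V} {σ : V ≃ V} (h : ∀ x y, H.Adj x y ↔ K.Adj (σ x) (σ y))
    (u v : V) (Z : Finset V) :
    (dset K (σ u) (σ v) \ Z.image σ).card = (dset H u v \ Z).card := by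
  rw [dset_im h, ← Finset.image_sdiff _ _ σ.injective, card_im]

theorem Hnz_im {H K : SimpleGraph V} {σ : V ≃ V} (h : ∀ x y, H.Adj x y ↔ K.Adj (σ x) (σ y))
    (g hh q d : ℕ) (A Z : Finset V) (a b : V) :
    Hnz K g hh q d (A.image σ) (Z.image σ) (σ a) (σ b) ↔ Hnz H g hh q d A Z a b := by
  unfold Hnz
  have e1 : (∃ t ∈ inz K (4 * g) (A.image σ) (Z.image σ) (σ a),
      ∃ a' ∈ sz K (A.image σ) (Z.image σ) t (σ a),
        (dset K (σ a) a' \ Z.image σ).card ≤ d ∧ σ b ∈ dset K (σ a) a') ↔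
      (∃ t ∈ inz H (4 * g) A Z a, ∃ a' ∈ sz H A Z t a,
        (dset H a a' \ Z).card ≤ d ∧ b ∈ dset H a a') := by
    rw [ex_im σ]
    refine exists_congr fun t => ?_
    rw [inz_im h, mem_im]
    refine and_congr Iff.rfl ?_
    rw [ex_im σ]
    refine exists_congr fun a' => ?_
    rw [sz_im h, mem_im, dcz h, dset_im h, mem_im]
  have e2 : (∃ a' ∈ rcz K g (A.image σ) (Z.image σ) (σ a),
        (dset K (σ a) a' \ Z.image σ).card ≤ d ∧ σ b ∈ dset K (σ a) a') ↔
      (∃ a' ∈ rcz H g A Z a,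
        (dset H a a' \ Z).card ≤ d ∧ b ∈ dset H a a') := by
    rw [ex_im σ]
    refine exists_congr fun a' => ?_
    rw [rcz_im h, mem_im, dcz h, dset_im h, mem_im]
  rw [e1, e2, mem_im, inz_im h, card_im, mem_im, rcz_im h, card_im]

theorem RSz_im {H K : SimpleGraph V} {σ : V ≃ V} (h : ∀ x y, H.Adj x y ↔ K.Adj (σ x) (σ y))
    (g hh q d : ℕ) (A Z : Finset V) (s : ℕ) (a : V) :
    RSz K g hh q d (A.image σ) (Z.image σ) s (σ a) = (RSz H g hh q d A Z s a).image σ := by
  induction s with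
  | zero => simp [RSz]
  | succ s ih =>
    rw [RSz, RSz, ih, Finset.image_union]
    congr 1
    ext x
    obtain ⟨x, rfl⟩ := σ.surjective x
    rw [mem_im]
    simp only [Finset.mem_filter, Finset.mem_univ, true_and]
    rw [ex_im σ]
    refine exists_congr fun c => ?_
    rw [mem_im, Hnz_im h]

end EQZ_

open EQZ_ Pool.Agent.NRQ.EQQ_ in
/-- EQZ: invariance of `CdM` -/
theorem p_EQZ : T_EQZ := by
  intro V _ H K σ g hh q d s A Z h hG
  obtain ⟨hZA, w, u, b, D, hD⟩ := hG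
  refine ⟨?_, fun v => σ (w (σ.symm v)), fun v => σ (u (σ.symm v)), fun v => b (σ.symm v),
    fun v => (D (σ.symm v)).image σ, ?_⟩
  · intro v hv
    obtain ⟨v, rfl⟩ := σ.surjective v
    rw [mem_im] at hv ⊢
    exact hZA v hv
  · intro v hv
    obtain ⟨v, rfl⟩ := σ.surjective v
    rw [mem_im] at hv
    obtain ⟨h1, h2, h3, h4, h5, h6⟩ := hD v hv
    simp only [σ.symm_apply_apply]
    refine ⟨by rwa [mem_im], by rwa [mem_im], by rwa [card_im], ?_, ?_, ?_⟩
    · rw [RSz_im h, RSz_im h, ← Finset.image_union]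
      exact Finset.image_subset_image h4
    · intro z hz
      obtain ⟨z, rfl⟩ := σ.surjective z
      rw [mem_im] at hz
      rw [← h z v, h5 z hz]
      simp only [mem_im, ← h, σ.injective.eq_iff]
    · intro v' hv' hne
      obtain ⟨v', rfl⟩ := σ.surjective v'
      rw [mem_im] at hv'
      rw [σ.symm_apply_apply, ← h, ← h]
      exact h6 v' hv' fun e => hne (by rw [e])

end Pool.Agent.NRX
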