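import Pool.Agent.NRX.Targets
import Pool.Agent.HER47.P_CODE

/-!
# NRX, FXD: counting graphs dominated by a set, fixed on this set
-/

set_option autoImplicit false

open Finset Classical

namespace Pool.Agent.NRX

open Pool.Agent Pool.Agent.HER47

theorem p_FXD : T_FXD := by
  intro n K F M
  refine (le_of_eq (Nat.subtype_card (p := fun G : SimpleGraph (Fin n) =>
    (∀ x y, x ∈ M → y ∈ M → (G.Adj x y ↔ F.Adj x y)) ∧ Dom K G M) _
    (fun G => by simp)).symm).trans ?_
  have hm0 : ∀ (G : {G : SimpleGraph (Fin n) //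
      (∀ x y, x ∈ M → y ∈ M → (G.Adj x y ↔ F.Adj x y)) ∧ Dom K G M}) (v : {v // v ∉ M}),
      ∃ u : Fin n, u ∈ M ∧ (ds G.1 v.1 u).card < K := fun G v => G.2.2 v.1 v.2
  choose m hmM hmK using hm0
  let enc : {G : SimpleGraph (Fin n) //
      (∀ x y, x ∈ M → y ∈ M → (G.Adj x y ↔ F.Adj x y)) ∧ Dom K G M} →
        ({v // v ∉ M} → Fin n × Bool × {Z : Finset (Fin n) // Z.card < K}) :=
    fun G v => (m G v, decide (G.1.Adj v.1 (m G v)), ⟨ds G.1 v.1 (m G v), hmK G v⟩)
  have hinj : Function.Injective enc := by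
    intro G H hGH
    apply Subtype.ext
    have a2 : ∀ v : {v // v ∉ M}, (m G v, decide (G.1.Adj v.1 (m G v)),
        (⟨ds G.1 v.1 (m G v), hmK G v⟩ : {Z : Finset (Fin n) // Z.card < K})) =
        (m H v, decide (H.1.Adj v.1 (m H v)), ⟨ds H.1 v.1 (m H v), hmK H v⟩) := by
      intro v
      have := congrFun hGH v
      exact this
    have b1 : ∀ v, m G v = m H v := fun v => congrArg (fun p => p.1) (a2 v)
    have b2 : ∀ v : {v // v ∉ M}, (G.1.Adj v.1 (m G v) ↔ H.1.Adj v.1 (m H v)) := by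
      intro v
      have := congrArg (fun p => p.2.1) (a2 v)
      exact decide_eq_decide.1 this
    have b3 : ∀ v : {v // v ∉ M}, ds G.1 v.1 (m G v) = ds H.1 v.1 (m H v) := by
      intro v
      have := congrArg (fun p => p.2.2.1) (a2 v)
      exact this
    refine CODE_.code_inj (M := M) G.1 H.1
      (fun v => if h : v ∉ M then m G ⟨v, h⟩ else v) ?_ ?_ ?_ ?_
    · intro v hv
      rw [dif_pos hv]
      exact hmM G _
    · intro a ha b hb
      rw [G.2.1 a b ha hb, H.2.1 a b ha hb]
    · intro v hv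
      rw [dif_pos hv]
      have := b2 ⟨v, hv⟩
      rw [← b1 ⟨v, hv⟩] at this
      exact this
    · intro v hv
      rw [dif_pos hv]
      have := b3 ⟨v, hv⟩
      rw [← b1 ⟨v, hv⟩] at this
      exact this
  refine (Nat.card_le_card_of_injective enc hinj).trans ?_
  rw [Nat.card_fun, Nat.card_prod, Nat.card_prod]
  have hc1 : Nat.card {v : Fin n // v ∉ M} = n - M.card := by
    rw [Nat.card_eq_fintype_card, Fintype.card_subtype_compl]
    simp
  have hc2 : Nat.card (Fin n) = n := by simp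
  have hc3 : Nat.card Bool = 2 := by simp
  rw [hc1, hc2, hc3]
  refine Nat.pow_le_pow_left ?_ _
  calc n * (2 * Nat.card {Z : Finset (Fin n) // Z.card < K}) ≤ n * (2 * (n + 1) ^ K) :=
        Nat.mul_le_mul_left _ (Nat.mul_le_mul_left _ (CODE_.card_small n K))
    _ = 2 * n * (n + 1) ^ K := by ring

end Pool.Agent.NRX
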