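import Pool.Agent.NRX.Targets
import Pool.Agent.NRM.P_CTM

/-!
# NRX, FXM: counting codes for a fixed graph outside `Z` (edit of `NRM/P_CTM.lean`)
-/

set_option autoImplicit false

open Finset Classical

namespace Pool.Agent.NRX

open Pool.Agent Pool.Agent.Lib.Recon Pool.Agent.RNB Pool.Agent.NRC Pool.Agent.NRM
  Pool.Agent.NRP Pool.Agent.NRR Pool.Agent.NRW

namespace FXM_

open Pool.Agent.NRM.CTM_ (sz_eq Ars_eq BRs_eq enc enc_inj)

theorem fixF {n g M : ℕ} (F : SimpleGraph (Fin n)) (A Z : Finset (Fin n)) :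
    Nat.card {K : SimpleGraph (Fin n) //
      (∀ x y, x ∉ Z → y ∉ Z → (K.Adj x y ↔ F.Adj x y)) ∧ GdM K g M A Z} ≤
      (2 * n ^ 3 * 2 ^ M) ^ Z.card := by
  have hex := fun G : {K : SimpleGraph (Fin n) //
      (∀ x y, x ∉ Z → y ∉ Z → (K.Adj x y ↔ F.Adj x y)) ∧ GdM K g M A Z} => G.2.2.2
  choose w u1 u2 b S hall using hex
  have hA := fun G : {K : SimpleGraph (Fin n) //
      (∀ x y, x ∉ Z → y ∉ Z → (K.Adj x y ↔ F.Adj x y)) ∧ GdM K g M A Z} => G.2.2.1
  let cod : {K : SimpleGraph (Fin n) //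
      (∀ x y, x ∉ Z → y ∉ Z → (K.Adj x y ↔ F.Adj x y)) ∧ GdM K g M A Z} →
      ({v // v ∈ Z} → Fin n × Fin n × Fin n × Bool × (Fin M → Bool)) :=
    fun G => (fun v => (w G v.1, u1 G v.1, u2 G v.1, b G v.1,
        enc M (BRs G.1 g A Z (w G v.1)) (S G v.1)))
  have hinj : Function.Injective cod := by
    intro G H hGH
    apply Subtype.ext
    have a2 : ∀ v : {v // v ∈ Z}, (w G v.1, u1 G v.1, u2 G v.1, b G v.1,
        enc M (BRs G.1 g A Z (w G v.1)) (S G v.1)) =
        (w H v.1, u1 H v.1, u2 H v.1, b H v.1,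
        enc M (BRs H.1 g A Z (w H v.1)) (S H v.1)) := by
      intro v
      have := congrFun hGH v
      exact this
    have b1 : ∀ v ∈ Z, w G v = w H v := fun v hv => congrArg (fun p => p.1) (a2 ⟨v, hv⟩)
    have b2 : ∀ v ∈ Z, u1 G v = u1 H v := fun v hv => congrArg (fun p => p.2.1) (a2 ⟨v, hv⟩)
    have b3 : ∀ v ∈ Z, u2 G v = u2 H v := fun v hv => congrArg (fun p => p.2.2.1) (a2 ⟨v, hv⟩)
    have b4 : ∀ v ∈ Z, b G v = b H v := fun v hv => congrArg (fun p => p.2.2.2.1) (a2 ⟨v, hv⟩)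
    have b5 : ∀ v ∈ Z, enc M (BRs G.1 g A Z (w G v)) (S G v) =
        enc M (BRs H.1 g A Z (w H v)) (S H v) :=
      fun v hv => congrArg (fun p => p.2.2.2.2) (a2 ⟨v, hv⟩)
    -- outside `Z`
    have hout : ∀ a b, a ∉ Z → b ∉ Z → (G.1.Adj a b ↔ H.1.Adj a b) := fun a b ha hb =>
      (G.2.1 a b ha hb).trans (H.2.1 a b ha hb).symm
    have hBR : ∀ x, BRs G.1 g A Z x = BRs H.1 g A Z x := fun x => BRs_eq (hA G) hout x
    have hS : ∀ v ∈ Z, S G v = S H v := by
      intro v hv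
      have c1 := hall G v hv
      have c2 := hall H v hv
      have c3 := b5 v hv
      have c4 := c1.2.2.2.2.1
      rw [hBR, b1 v hv] at c3 c4
      exact enc_inj c2.2.2.2.1 c4 c2.2.2.2.2.1 c3
    have hin : ∀ z, z ∉ Z → ∀ v ∈ Z, (G.1.Adj z v ↔ H.1.Adj z v) := by
      intro z hz v hv
      obtain ⟨-, d2, -, -, -, d6, -⟩ := hall G v hv
      obtain ⟨-, f2, -, -, -, f6, -⟩ := hall H v hv
      have d7 := d6 z hz
      have f7 := f6 z hz
      rw [hBR, b1 v hv, hS v hv, b2 v hv, b4 v hv] at d7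
      rw [hout z (u1 H v) hz f2, sz_eq (hA G) hout hz f2] at d7
      exact d7.trans f7.symm
    have hii : ∀ v' ∈ Z, ∀ v ∈ Z, (G.1.Adj v' v ↔ H.1.Adj v' v) := by
      intro v' hv' v hv
      by_cases hne : v' = v
      · rw [hne]
        simp
      · obtain ⟨-, d2, -, -, -, -, d7⟩ := hall G v hv
        obtain ⟨-, f2, -, -, -, -, f7⟩ := hall H v hv
        obtain ⟨-, -, k3, -⟩ := hall H v' hv'
        have d8 := d7 v' hv' hne
        have f8 := f7 v' hv' hne
        rw [b2 v hv, b3 v' hv', hout _ _ k3 f2, sz_eq (hA G) hout k3 f2] at d8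
        exact d8.trans f8.symm
    ext x y
    by_cases hx : x ∈ Z
    · by_cases hy : y ∈ Z
      · exact hii x hx y hy
      · rw [G.1.adj_comm, H.1.adj_comm]
        exact hin y hy x hx
    · by_cases hy : y ∈ Z
      · exact hin x hx y hy
      · exact hout x y hx hy
  refine (Nat.card_le_card_of_injective cod hinj).trans (le_of_eq ?_)
  have hc1 : Nat.card {v : Fin n // v ∈ Z} = Z.card := by
    rw [Nat.card_eq_fintype_card, Fintype.card_coe]
  have hc2 : Nat.card (Fin n) = n := by simp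
  have hc3 : Nat.card Bool = 2 := by simp
  have hc4 : Nat.card (Fin M → Bool) = 2 ^ M := by
    rw [Nat.card_fun, hc3]
    simp
  rw [Nat.card_fun, Nat.card_prod, Nat.card_prod, Nat.card_prod, Nat.card_prod,
    hc1, hc2, hc3, hc4]
  congr 1
  ring

end FXM_

theorem p_FXM : T_FXM := by
  intro n g M F A Z
  have h := FXM_.fixF (g := g) (M := M) F A Z
  rwa [Nat.card_eq_fintype_card, Fintype.card_subtype] at h

end Pool.Agent.NRX
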