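import Pool.Agent.NRX.Targets
import Pool.Agent.NRR.P_CTZ

/-!
# NRX, FXZ: counting codes with hints for a fixed graph outside `Z`
-/

set_option autoImplicit false

open Finset Classical

namespace Pool.Agent.NRX

open Pool.Agent Pool.Agent.Lib.Recon Pool.Agent.RNB Pool.Agent.NRC Pool.Agent.NRM
  Pool.Agent.NRP Pool.Agent.NRR Pool.Agent.NRR.CTZ_

theorem p_FXZ (h1 : NRR.T_RSZ) (h2 : NRR.T_INZ) : T_FXZ := by
  intro n g h q d s F A Z
  rw [← Fintype.card_subtype, ← Nat.card_eq_fintype_card]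
  have hex := fun G : {G : SimpleGraph (Fin n) //
    (∀ x y, x ∉ Z → y ∉ Z → (G.Adj x y ↔ F.Adj x y)) ∧ CdM G g h q d s A Z} => G.2.2.2
  choose w u b D hall using hex
  have hA := fun G : {G : SimpleGraph (Fin n) //
    (∀ x y, x ∉ Z → y ∉ Z → (G.Adj x y ↔ F.Adj x y)) ∧ CdM G g h q d s A Z} => G.2.2.1
  set m : ℕ := 2 * (h + h * (4 * g) * d + q * d + 1) ^ s with hm
  let cod : {G : SimpleGraph (Fin n) //
      (∀ x y, x ∉ Z → y ∉ Z → (G.Adj x y ↔ F.Adj x y)) ∧ CdM G g h q d s A Z} →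
      ({v // v ∈ Z} → Fin n × Fin n × Bool × Fin ((m + 1) ^ d)) :=
    fun G => fun v => (w G v.1, u G v.1, b G v.1,
        enc m d (RU G.1 g h q d A Z s (w G v.1) (u G v.1)) (D G v.1))
  have hinj : Function.Injective cod := by
    intro G H hGH
    apply Subtype.ext
    have a2 : ∀ v : {v // v ∈ Z}, (w G v.1, u G v.1, b G v.1,
        enc m d (RU G.1 g h q d A Z s (w G v.1) (u G v.1)) (D G v.1)) = (w H v.1, u H v.1, b H v.1,
        enc m d (RU H.1 g h q d A Z s (w H v.1) (u H v.1)) (D H v.1)) := by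
      intro v
      have := congrArg (fun p => p v) hGH
      exact this
    have b1 : ∀ v ∈ Z, w G v = w H v := fun v hv => congrArg (fun p => p.1) (a2 ⟨v, hv⟩)
    have b2 : ∀ v ∈ Z, u G v = u H v := fun v hv => congrArg (fun p => p.2.1) (a2 ⟨v, hv⟩)
    have b4 : ∀ v ∈ Z, b G v = b H v := fun v hv => congrArg (fun p => p.2.2.1) (a2 ⟨v, hv⟩)
    have b5 : ∀ v ∈ Z,
        enc m d (RU G.1 g h q d A Z s (w G v) (u G v)) (D G v) =
        enc m d (RU H.1 g h q d A Z s (w H v) (u H v)) (D H v) :=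
      fun v hv => congrArg (fun p => p.2.2.2) (a2 ⟨v, hv⟩)
    -- outside `Z`
    have hout : ∀ a b, a ∉ Z → b ∉ Z → (G.1.Adj a b ↔ H.1.Adj a b) := by
      intro a b ha hb
      exact (G.2.1 a b ha hb).trans (H.2.1 a b ha hb).symm
    have hRS : ∀ x, x ∉ Z → RSz G.1 g h q d A Z s x = RSz H.1 g h q d A Z s x := fun x hx =>
      h2 (Fin n) H.1 G.1 g h q d A Z (hA G) hout s x hx
    have hD : ∀ v ∈ Z, D G v = D H v := by
      intro v hv
      obtain ⟨c1, c2, c3, c4, -, -⟩ := hall G v hv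
      obtain ⟨e1, e2, e3, e4, -, -⟩ := hall H v hv
      have c5 := b5 v hv
      have c6 := sub_RU c4
      have e6 := sub_RU e4
      rw [RU_eq (hRS _ c1) (hRS _ c2), b1 v hv, b2 v hv] at c6 c5
      exact enc_inj (card_RU h1 _ _ _ _ _ _ _ _ _ _) c6 c3 e6 e3 c5
    have hin : ∀ z, z ∉ Z → ∀ v ∈ Z, (G.1.Adj z v ↔ H.1.Adj z v) := by
      intro z hz v hv
      obtain ⟨-, -, -, -, d6, -⟩ := hall G v hv
      obtain ⟨-, f2, -, -, f6, -⟩ := hall H v hv
      have d7 := d6 z hz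
      have f7 := f6 z hz
      rw [hD v hv, b2 v hv, b4 v hv, hout z (u H v) hz f2] at d7
      exact d7.trans f7.symm
    have hii : ∀ v' ∈ Z, ∀ v ∈ Z, (G.1.Adj v' v ↔ H.1.Adj v' v) := by
      intro v' hv' v hv
      by_cases hne : v' = v
      · rw [hne]
        simp
      · obtain ⟨-, -, -, -, -, d7⟩ := hall G v hv
        obtain ⟨-, f2, -, -, -, f7⟩ := hall H v hv
        obtain ⟨-, k3, -⟩ := hall H v' hv'
        have d8 := d7 v' hv' hne
        have f8 := f7 v' hv' hne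
        rw [b2 v hv, b2 v' hv', hout _ _ k3 f2] at d8
        exact d8.trans f8.symm
    ext x y
    by_cases hx : x ∈ Z
    · by_cases hy : y ∈ Z
      · exact hii x hx y hy
      · rw [G.1.adj_comm, H.1.adj_comm]
        exact hin y hy x hx
    · by_cases hy : y ∈ Z
      · exact hin x hx y hy
      · exact hout x y hx hy
  refine (Nat.card_le_card_of_injective cod hinj).trans (le_of_eq ?_)
  have hc1 : Nat.card {v : Fin n // v ∈ Z} = Z.card := by
    rw [Nat.card_eq_fintype_card, Fintype.card_coe]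
  have hc2 : Nat.card (Fin n) = n := by simp
  have hc3 : Nat.card Bool = 2 := by simp
  have hc4 : Nat.card (Fin ((m + 1) ^ d)) = (m + 1) ^ d := by simp
  rw [Nat.card_fun, Nat.card_prod, Nat.card_prod, Nat.card_prod, hc1, hc2, hc3, hc4]
  congr 1
  ring

end Pool.Agent.NRX
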