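import Pool.Agent.NRX.Targets
import Pool.Agent.NRC.P_AVG

set_option autoImplicit false

/-!
# NRX: averaging over the nets, several vertices deleted
-/

open Finset Classical

namespace Pool.Agent.NRX

open Pool.Agent Pool.Agent.Lib.Recon Pool.Agent.RNB Pool.Agent.NRC Pool.Agent.NRP Pool.Agent.NRQ
open Pool.Agent.NRW

namespace GAV_

/-- Pigeonhole over the sets with `k` elements. -/
theorem pigeon {V Ω : Type} [Fintype V] [Fintype Ω] (P : Ω → Finset V → Prop) (Z0 : Finset V)
    (s : Finset Ω) (hs : ∀ p ∈ s, ∃ Z : Finset V, Z.card = Z0.card ∧ P p Z) :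
    ∃ Z : Finset V, Z.card = Z0.card ∧
      s.card ≤ (Fintype.card V).choose Z0.card * (univ.filter (fun p => P p Z)).card := by
  obtain ⟨Z, hZ, hv⟩ := Finset.exists_max_image (powersetCard Z0.card (univ : Finset V))
    (fun Z => (univ.filter (fun p => P p Z)).card)
    ⟨Z0, Finset.mem_powersetCard.mpr ⟨subset_univ _, rfl⟩⟩
  refine ⟨Z, (Finset.mem_powersetCard.mp hZ).2, ?_⟩
  calc s.card ≤ ((powersetCard Z0.card (univ : Finset V)).biUnion
          fun Z => univ.filter (fun p => P p Z)).card := by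
        refine Finset.card_le_card fun p hp => ?_
        obtain ⟨u, hu1, hu⟩ := hs p hp
        exact Finset.mem_biUnion.mpr ⟨u, Finset.mem_powersetCard.mpr ⟨subset_univ _, hu1⟩,
          Finset.mem_filter.mpr ⟨mem_univ p, hu⟩⟩
    _ ≤ (powersetCard Z0.card (univ : Finset V)).card *
          (univ.filter (fun p => P p Z)).card :=
        Finset.card_biUnion_le_card_mul _ _ _ fun u hu => hv u hu
    _ = (Fintype.card V).choose Z0.card * (univ.filter (fun p => P p Z)).card := by
        rw [Finset.card_powersetCard, Finset.card_univ]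

end GAV_

theorem p_GAV : T_GAV := by
  intro V ι J _ _ _ G Z0 H N B P hN hV hyp hne hP hB hcount
  have h1 : ∀ i, ∃ Z : Finset V, Z.card = Z0.card ∧ Fintype.card (Fin N × (Fin N → V)) ≤
      2 * ((Fintype.card V).choose Z0.card * (univ.filter (fun p : Fin N × (Fin N → V) =>
        P (H i) (Bi ∅ p.2 p.1) Z)).card) := by
    intro i
    obtain ⟨Z, hZ, hv⟩ := GAV_.pigeon
      (fun (p : Fin N × (Fin N → V)) Z => P (H i) (Bi ∅ p.2 p.1) Z) Z0 _
      (fun p hp => (Finset.mem_filter.mp hp).2)
    exact ⟨Z, hZ, (hcount i).trans (Nat.mul_le_mul_left 2 hv)⟩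
  choose v hvc hv using h1
  have h2 : ∀ i, ∃ j : J, ∃ σ : V ≃ V, (v i).image σ = Z0 ∧
      ∀ x y, x ∉ v i → y ∉ v i → ((H i).Adj x y ↔ (G j).Adj (σ x) (σ y)) :=
    fun i => hyp i (v i) (hvc i)
  choose c σ hσv hσ using h2
  -- the graphs `K i`
  obtain ⟨K, hK⟩ : ∃ K : ι → SimpleGraph V, ∀ i x y,
      ((H i).Adj x y ↔ (K i).Adj (σ i x) (σ i y)) := by
    refine ⟨fun i => (H i).comap (σ i).symm, fun i x y => ?_⟩
    rw [SimpleGraph.comap_adj, Equiv.symm_apply_apply, Equiv.symm_apply_apply]
  have hmem : ∀ i x, x ∉ Z0 → (σ i).symm x ∉ v i := by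
    intro i x hx h
    refine hx ?_
    rw [← hσv i]
    exact Finset.mem_image.mpr ⟨_, h, Equiv.apply_symm_apply _ _⟩
  have hKG : ∀ i x y, x ∉ Z0 → y ∉ Z0 → ((K i).Adj x y ↔ (G (c i)).Adj x y) := by
    intro i x y hx hy
    have h3 := hσ i _ _ (hmem i x hx) (hmem i y hy)
    have h4 := hK i ((σ i).symm x) ((σ i).symm y)
    rw [Equiv.apply_symm_apply, Equiv.apply_symm_apply] at h3 h4
    exact h4.symm.trans h3
  have hinj : Function.Injective K := by
    intro i j hij
    by_contra hij'
    refine hne i j hij' ⟨(σ i).trans (σ j).symm, fun x y => ?_⟩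
    rw [hK i, hij, hK j, Equiv.trans_apply, Equiv.trans_apply, Equiv.apply_symm_apply,
      Equiv.apply_symm_apply]
  -- transport of the nets
  have h3 : ∀ i, (univ.filter (fun p : Fin N × (Fin N → V) =>
      P (H i) (Bi ∅ p.2 p.1) (v i))).card ≤
      (univ.filter (fun p : Fin N × (Fin N → V) =>
        P (K i) (Bi ∅ p.2 p.1) Z0)).card := by
    intro i
    refine Finset.card_le_card_of_injOn
      (fun p : Fin N × (Fin N → V) => (p.1, fun j => σ i (p.2 j))) ?_ ?_
    · intro p hp
      have hp' := (Finset.mem_filter.mp (Finset.mem_coe.mp hp)).2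
      have h4 := hP (H i) (K i) (σ i) _ (v i) (hK i) hp'
      rw [hσv i, Pool.Agent.NRC.AVG_.image_Bi] at h4
      exact Finset.mem_coe.mpr (Finset.mem_filter.mpr ⟨mem_univ _, h4⟩)
    · intro p _ p' _ h
      have h' : ((p.1, fun j => σ i (p.2 j)) : Fin N × (Fin N → V)) =
        (p'.1, fun j => σ i (p'.2 j)) := h
      obtain ⟨ha, hb⟩ := Prod.mk.inj h'
      refine Prod.ext ha (funext fun j => (σ i).injective ?_)
      exact congrFun hb j
  -- the number of graphs for a fixed net
  have h5 : ∀ p : Fin N × (Fin N → V), (univ.filter (fun i =>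
      P (K i) (Bi ∅ p.2 p.1) Z0)).card ≤ B * Fintype.card J := by
    intro p
    have h6 := Finset.card_le_mul_card_image_of_maps_to (f := c)
      (s := univ.filter (fun i => P (K i) (Bi ∅ p.2 p.1) Z0))
      (t := (univ : Finset J)) (fun i _ => mem_univ _) B ?_
    · rwa [Finset.card_univ] at h6
    · intro t _
      refine le_trans ?_ (hB (G t) (Bi ∅ p.2 p.1))
      refine Finset.card_le_card_of_injOn K ?_ (fun i _ j _ h => hinj h)
      intro i hi
      obtain ⟨hi1, hi2⟩ := Finset.mem_filter.mp (Finset.mem_coe.mp hi)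
      have hi3 := (Finset.mem_filter.mp hi1).2
      refine Finset.mem_coe.mpr (Finset.mem_filter.mpr ⟨mem_univ _, ?_, hi3⟩)
      intro x y hx hy
      rw [← hi2]
      exact hKG i x y hx hy
  -- double counting
  have h7 : ∑ i, (univ.filter (fun p : Fin N × (Fin N → V) =>
      P (K i) (Bi ∅ p.2 p.1) Z0)).card =
      ∑ p : Fin N × (Fin N → V), (univ.filter (fun i =>
        P (K i) (Bi ∅ p.2 p.1) Z0)).card := by
    simp only [Finset.card_filter]
    exact Finset.sum_comm
  have hΩ : 0 < Fintype.card (Fin N × (Fin N → V)) :=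
    Fintype.card_pos_iff.mpr ⟨(⟨0, hN⟩, fun _ => Classical.arbitrary V)⟩
  refine Nat.le_of_mul_le_mul_right ?_ hΩ
  calc Fintype.card ι * Fintype.card (Fin N × (Fin N → V))
      = ∑ _i : ι, Fintype.card (Fin N × (Fin N → V)) := by
        rw [Finset.sum_const, Finset.card_univ, smul_eq_mul]
    _ ≤ ∑ i : ι, 2 * ((Fintype.card V).choose Z0.card *
          (univ.filter (fun p : Fin N × (Fin N → V) =>
            P (K i) (Bi ∅ p.2 p.1) Z0)).card) :=
        Finset.sum_le_sum fun i _ => (hv i).trans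
          (Nat.mul_le_mul_left 2 (Nat.mul_le_mul_left _ (h3 i)))
    _ = 2 * ((Fintype.card V).choose Z0.card *
          ∑ i : ι, (univ.filter (fun p : Fin N × (Fin N → V) =>
            P (K i) (Bi ∅ p.2 p.1) Z0)).card) := by
        rw [← Finset.mul_sum, ← Finset.mul_sum]
    _ ≤ 2 * ((Fintype.card V).choose Z0.card *
          ∑ _p : Fin N × (Fin N → V), B * Fintype.card J) := by
        rw [h7]
        exact Nat.mul_le_mul_left 2 (Nat.mul_le_mul_left _
          (Finset.sum_le_sum fun p _ => h5 p))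
    _ = 2 * (Fintype.card V).choose Z0.card * (Fintype.card J * B) *
          Fintype.card (Fin N × (Fin N → V)) := by
        rw [Finset.sum_const, Finset.card_univ, smul_eq_mul]
        ring

end Pool.Agent.NRX
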