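import Pool.Agent.NRX.Targets

/-!
# NRX, LSZ: the types with `n - k` vertices as a list
-/

set_option autoImplicit false

open Finset Classical

namespace Pool.Agent.NRX

open Pool.Agent Pool.Agent.Lib.Recon Pool.Agent.RNB Pool.Agent.NRC Pool.Agent.NRM
  Pool.Agent.NRP Pool.Agent.NRR Pool.Agent.NRW

namespace LSZ_

/-- the complement of a set with `k` elements -/
theorem ex_equiv {n k : ℕ} (Z : Finset (Fin n)) (hZ : Z.card = k) :
    Nonempty (Fin (n - k) ≃ {x : Fin n // x ∉ Z}) := by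
  have h : Fintype.card {x : Fin n // x ∉ Z} = n - k := by
    rw [Fintype.card_subtype_compl, Fintype.card_fin]
    congr 1
    rw [← hZ]
    exact Fintype.card_coe Z
  exact ⟨(Fintype.equivFinOfCardEq h).symm⟩

/-- extension of a bijection of the complements -/
theorem ext {n k : ℕ} {Z Z0 : Finset (Fin n)} (hZ : Z.card = k) (hZ0 : Z0.card = k)
    (τ : {x : Fin n // x ∉ Z} ≃ {x : Fin n // x ∉ Z0}) :
    ∃ σ : Fin n ≃ Fin n, Z.image σ = Z0 ∧ ∀ (x : Fin n) (hx : x ∉ Z), σ x = τ ⟨x, hx⟩ := by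
  refine ⟨τ.extendSubtype, ?_, fun x hx => τ.extendSubtype_apply_of_mem x hx⟩
  refine eq_of_subset_of_card_le ?_ ?_
  · intro y hy
    obtain ⟨x, hx, rfl⟩ := mem_image.1 hy
    have h := τ.extendSubtype_not_mem x (fun hc => hc hx)
    exact not_not.1 h
  · rw [card_image_of_injective _ τ.extendSubtype.injective, hZ, hZ0]

end LSZ_

open LSZ_ in
theorem p_LSZ : T_LSZ := by
  intro C hC n k hk
  obtain ⟨Z0, -, hZ0⟩ := exists_subset_card_eq (s := (univ : Finset (Fin n))) (n := k)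
    (by rw [card_univ, Fintype.card_fin]; exact hk)
  obtain ⟨e0⟩ := ex_equiv Z0 hZ0
  let F : {S // S ∈ typ C (n - k)} → SimpleGraph (Fin (n - k)) := fun j => j.2.choose
  have hF : ∀ j : {S // S ∈ typ C (n - k)}, j.1 = {G' | Nonempty (F j ≃g G')} :=
    fun j => j.2.choose_spec.2
  let f0 : Fin (n - k) ↪ Fin n := e0.toEmbedding.trans (Function.Embedding.subtype _)
  refine ⟨Z0, fun j => (F j).map f0, hZ0, fun H hH Z hZ => ?_⟩
  obtain ⟨e⟩ := ex_equiv Z hZ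
  have hK : C (Fin (n - k)) (H.comap (e.toEmbedding.trans (Function.Embedding.subtype _))) :=
    hC (Fin (n - k)) (Fin n) _ H hH
  obtain ⟨K, hKd⟩ : ∃ K : SimpleGraph (Fin (n - k)),
    K = H.comap (e.toEmbedding.trans (Function.Embedding.subtype _)) := ⟨_, rfl⟩
  rw [← hKd] at hK
  let j : {S // S ∈ typ C (n - k)} := ⟨{G' | Nonempty (K ≃g G')}, K, hK, rfl⟩
  have hKj : K ∈ j.1 := ⟨SimpleGraph.Iso.refl⟩
  rw [hF j] at hKj
  obtain ⟨φ⟩ := hKj
  obtain ⟨σ, hσ1, hσ2⟩ := ext hZ hZ0 (e.symm.trans (φ.symm.toEquiv.trans e0))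
  have hσ3 : ∀ a, (∃ b ∈ Z, σ b = a) ↔ a ∈ Z0 := by
    intro a
    rw [← hσ1, mem_image]
  refine ⟨j, σ, Finset.ext fun a => (@mem_image _ _ (fun a b => Classical.propDecidable (a = b))
    _ _ _).trans (hσ3 a), fun x y hx hy => ?_⟩
  have s1 : ∀ (x : Fin n) (hx : x ∉ Z), σ x = f0 (φ.symm (e.symm ⟨x, hx⟩)) := by
    intro x hx
    rw [hσ2 x hx]
    rfl
  rw [s1 x hx, s1 y hy]
  show H.Adj x y ↔ ((F j).map f0).Adj _ _
  rw [SimpleGraph.map_adj_apply]
  have h1 : (F j).Adj (φ.symm (e.symm ⟨x, hx⟩)) (φ.symm (e.symm ⟨y, hy⟩)) ↔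
      K.Adj (e.symm ⟨x, hx⟩) (e.symm ⟨y, hy⟩) := φ.symm.map_rel_iff
  rw [h1, hKd, SimpleGraph.comap_adj]
  simp

end Pool.Agent.NRX
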