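import Pool.Agent.NRX.Targets
import Pool.Agent.NRR.P_INR

/-!
# NRX, target SQI: sequences, infinitely many n
-/

set_option autoImplicit false

open Finset Classical

namespace Pool.Agent.NRX

open Pool.Agent Pool.Agent.Lib.Recon Pool.Agent.RNB Pool.Agent.NRC Pool.Agent.NRM
  Pool.Agent.NRP Pool.Agent.NRR Pool.Agent.NRW

open Pool.Agent.NRR.INR_ in
theorem p_SQI : T_SQI := by
  intro C0 n₀ u v hn₀ hBig N
  by_contra hcon
  push Not at hcon
  obtain ⟨n1, hn1⟩ := pL_large 32
  set N₁ : ℕ := max N (max n₀ n1) with hN₁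
  set D : ℕ := 1 + ∑ m ∈ range (N₁ + 1), u m with hD
  have hsmall : ∀ m, m ≤ N₁ → u m ≤ D := by
    intro m hm
    have := Finset.single_le_sum (f := fun m => u m) (s := range (N₁ + 1))
      (fun i _ => Nat.zero_le _) (Finset.mem_range.mpr (by omega : m < N₁ + 1))
    omega
  have claim : ∀ n m : ℕ, m ≤ n →
      u m ≤ D * 2 ^ ((C0 + 1) * pL n * m) := by
    intro n m
    induction m using Nat.strong_induction_on with
    | _ m ih =>
      intro hmn
      rcases Nat.lt_or_ge N₁ m with hm | hm
      · have hmN : N ≤ m := le_trans (le_max_left _ _) hm.le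
        have hmn₀ : n₀ ≤ m :=
          le_trans (le_trans (le_max_left _ _) (le_max_right _ _)) hm.le
        have hmn1 : n1 ≤ m :=
          le_trans (le_trans (le_max_right _ _) (le_max_right _ _)) hm.le
        have h64 := hn1 m hmn1
        obtain ⟨-, hk1, -⟩ := sizes h64
        have h1 := hcon m hmN
        have h2 := hn₀ m hmn₀
        have h11 := num h64
        have hXY : pL m ≤ pL n := pL_mono hmn
        generalize pL m = X at h2 h11 hXY
        generalize pL n = Y at ih hXY ⊢
        have h3 : (∑ r ∈ Icc (kR m) m, 2 ^ (C0 * X * r) * u (m - r)) *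
            2 ^ (X * kR m) ≤ (m + 1) * (D * 2 ^ ((C0 + 1) * Y * m)) := by
          rw [Finset.sum_mul]
          have h4 : ∀ r ∈ Icc (kR m) m, 2 ^ (C0 * X * r) * u (m - r) *
              2 ^ (X * kR m) ≤ D * 2 ^ ((C0 + 1) * Y * m) := by
            intro r hr
            rw [Finset.mem_Icc] at hr
            have h5 := ih (m - r) (by omega) (by omega)
            have h6 : C0 * X * r + (C0 + 1) * Y * (m - r) + X * kR m ≤
                (C0 + 1) * Y * m := by
              have h7 : X * kR m ≤ X * r := Nat.mul_le_mul_left _ hr.1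
              have h8 : (C0 + 1) * (X * r) ≤ (C0 + 1) * (Y * r) :=
                Nat.mul_le_mul_left _ (Nat.mul_le_mul_right _ hXY)
              have h9 : (C0 + 1) * Y * m = (C0 + 1) * Y * (m - r) + (C0 + 1) * (Y * r) := by
                obtain ⟨s, hs⟩ := Nat.exists_eq_add_of_le hr.2
                rw [hs, Nat.add_sub_cancel_left]
                ring
              rw [h9]
              have h10 : C0 * X * r + X * r = (C0 + 1) * (X * r) := by ring
              omega
            calc 2 ^ (C0 * X * r) * u (m - r) * 2 ^ (X * kR m)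
                ≤ 2 ^ (C0 * X * r) * (D * 2 ^ ((C0 + 1) * Y * (m - r))) *
                  2 ^ (X * kR m) := by gcongr
              _ = D * 2 ^ (C0 * X * r + (C0 + 1) * Y * (m - r) + X * kR m) := by
                  rw [pow_add, pow_add]; ring
              _ ≤ _ := Nat.mul_le_mul_left _ (Nat.pow_le_pow_right (by norm_num) h6)
          calc _ ≤ (Icc (kR m) m).card • (D * 2 ^ ((C0 + 1) * Y * m)) :=
                Finset.sum_le_card_nsmul _ _ _ h4
            _ ≤ (m + 1) * (D * 2 ^ ((C0 + 1) * Y * m)) := by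
                rw [smul_eq_mul]
                apply Nat.mul_le_mul_right
                rw [Nat.card_Icc]
                omega
        set P : ℝ := (2 : ℝ) ^ ((m : ℝ) / Real.logb 2 m ^ 3) with hP
        have hP0 : 0 < P := by positivity
        set S : ℕ := ∑ r ∈ Icc (kR m) m, 2 ^ (C0 * X * r) * u (m - r)
          with hS
        set Z : ℕ := D * 2 ^ ((C0 + 1) * Y * m) with hZ
        have h3' : (S : ℝ) * 2 ^ (X * kR m) ≤ ((m : ℝ) + 1) * Z := by exact_mod_cast h3
        have h2' : (v m : ℝ) ≤ S := by exact_mod_cast h2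
        have h12 : (2 : ℝ) ^ (X * kR m) * (u m : ℝ) ≤ (2 : ℝ) ^ (X * kR m) * Z := by
          calc (2 : ℝ) ^ (X * kR m) * (u m : ℝ)
              ≤ (2 : ℝ) ^ (X * kR m) * (P * S) :=
                mul_le_mul_of_nonneg_left
                  (h1.le.trans (mul_le_mul_of_nonneg_left h2' hP0.le)) (by positivity)
            _ = P * (S * 2 ^ (X * kR m)) := by ring
            _ ≤ P * (((m : ℝ) + 1) * Z) := mul_le_mul_of_nonneg_left h3' hP0.le
            _ = (((m : ℝ) + 1) * P) * Z := by ring
            _ ≤ (2 : ℝ) ^ (X * kR m) * Z := mul_le_mul_of_nonneg_right h11 (by positivity)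
        have h13 : (u m : ℝ) ≤ Z := le_of_mul_le_mul_left h12 (by positivity)
        exact_mod_cast h13
      · exact (hsmall m hm).trans (Nat.le_mul_of_pos_right _ (by positivity))
  obtain ⟨n, hn, hb⟩ := hBig (max n1 D)
  have hnn1 : n1 ≤ n := le_trans (le_max_left _ _) hn
  have hnD : D ≤ n := le_trans (le_max_right _ _) hn
  have h64 := hn1 n hnn1
  have h1 := claim n n le_rfl
  obtain ⟨s2, -, -⟩ := sizes h64
  have g1 := log_ge h64
  have hn0 : (0 : ℝ) < n := by
    have : 0 < n := lt_of_lt_of_le (by positivity) s2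
    exact_mod_cast this
  have hn2 : (2 : ℝ) ^ ((pL n : ℝ) / 2) ≤ n := by
    rw [← Real.le_logb_iff_rpow_le one_lt_two hn0]
    exact g1
  have h2 : ((2 ^ ((C0 + 2) * pL n * n) : ℕ) : ℝ) ≤ (u n : ℝ) := by
    refine le_trans ?_ hb
    have e1 : ((2 ^ ((C0 + 2) * pL n * n) : ℕ) : ℝ) =
        ((2 : ℝ) ^ ((pL n : ℝ) / 2)) ^ (2 * ((C0 : ℝ) + 2) * n) := by
      rw [← Real.rpow_mul (by norm_num)]
      push_cast
      rw [← Real.rpow_natCast]
      congr 1
      push_cast
      ring
    rw [e1]
    have hn3 : (1 : ℝ) ≤ n := by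
      have h0 : 0 < n := by exact_mod_cast hn0
      exact_mod_cast h0
    have hn4 : 0 ≤ ((C0 : ℝ) + 2) * n := by positivity
    exact (Real.rpow_le_rpow (by positivity) hn2 (by positivity)).trans
      (Real.rpow_le_rpow_of_exponent_le hn3 (by linarith))
  have h3 : 2 ^ ((C0 + 2) * pL n * n) ≤ u n := by exact_mod_cast h2
  have hX1 : 1 ≤ pL n := by omega
  generalize pL n = X at h1 h3 hX1
  have h6 : 2 ^ ((C0 + 1) * X * n) * 2 ^ (X * n) ≤ 2 ^ ((C0 + 1) * X * n) * D := by
    calc 2 ^ ((C0 + 1) * X * n) * 2 ^ (X * n) = 2 ^ ((C0 + 2) * X * n) := by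
          rw [← pow_add]; congr 1; ring
      _ ≤ u n := h3
      _ ≤ _ := h1
      _ = _ := mul_comm _ _
  have h7 : 2 ^ (X * n) ≤ D := Nat.le_of_mul_le_mul_left h6 (by positivity)
  have h8 : n < 2 ^ n := Nat.lt_two_pow_self
  have h9 : 2 ^ n ≤ 2 ^ (X * n) :=
    Nat.pow_le_pow_right (by norm_num) (Nat.le_mul_of_pos_left _ hX1)
  omega

end Pool.Agent.NRX
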