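import Pool.Agent.NRX.Targets
import Pool.Agent.NRR.P_SUR

/-!
# NRX, target SQS: sequences, all large n
-/

set_option autoImplicit false

open Finset Classical

namespace Pool.Agent.NRX

open Pool.Agent Pool.Agent.Lib.Recon Pool.Agent.RNB Pool.Agent.NRC Pool.Agent.NRM
  Pool.Agent.NRP Pool.Agent.NRR Pool.Agent.NRW

namespace SQS_

lemma big (C0 : ℕ) (U : ℕ) {n r : ℕ} (h : 40 ≤ pL n) (hr : kR n ≤ r)
    (hB : (r : ℝ) ^ (8 * ((C0 : ℝ) + 2) * r) ≤ (U : ℝ)) :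
    2 ^ ((C0 + 2) * pL n * r) ≤ U := by
  have g1 := Pool.Agent.NRR.SUR_.big_r h hr
  obtain ⟨h1, -, -, -, -⟩ := Pool.Agent.NRR.SUR_.base h
  have hr0 : (0 : ℝ) ≤ r := Nat.cast_nonneg r
  have hL : (40 : ℝ) ≤ pL n := by exact_mod_cast h
  have hn2 : (2 : ℝ) ^ ((pL n : ℝ) / 4) ≤ r := by
    refine le_of_pow_le_pow_left₀ (n := 2) (by norm_num) hr0 ?_
    have e1 : ((2 : ℝ) ^ ((pL n : ℝ) / 4)) ^ 2 = (2 : ℝ) ^ ((pL n : ℝ) / 2) := by
      rw [← Real.rpow_natCast, ← Real.rpow_mul (by norm_num)]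
      congr 1
      push_cast
      ring
    rw [e1]
    have e2 : (2 : ℝ) ^ ((pL n : ℝ) / 2) ≤ (2 : ℝ) ^ ((pL n - 1 : ℕ) : ℝ) := by
      refine Real.rpow_le_rpow_of_exponent_le (by norm_num) ?_
      rw [Nat.cast_sub (by omega)]
      push_cast
      linarith
    refine e2.trans ?_
    rw [Real.rpow_natCast]
    exact_mod_cast h1.trans g1
  have h2 : ((2 ^ ((C0 + 2) * pL n * r) : ℕ) : ℝ) ≤ (U : ℝ) := by
    refine le_trans ?_ hB
    have e1 : ((2 ^ ((C0 + 2) * pL n * r) : ℕ) : ℝ) ≤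
        ((2 : ℝ) ^ ((pL n : ℝ) / 4)) ^ (8 * ((C0 : ℝ) + 2) * r) := by
      rw [← Real.rpow_mul (by norm_num)]
      push_cast
      rw [← Real.rpow_natCast]
      refine Real.rpow_le_rpow_of_exponent_le (by norm_num) ?_
      push_cast
      have : 0 ≤ ((C0 : ℝ) + 2) * pL n * r := by positivity
      nlinarith
    refine e1.trans ?_
    exact Real.rpow_le_rpow (by positivity) hn2 (by positivity)
  exact_mod_cast h2

lemma choose_le {n r : ℕ} (h : 40 ≤ pL n) : n.choose r ≤ 2 ^ (pL n * r) := by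
  obtain ⟨-, h2, -, -, -⟩ := Pool.Agent.NRR.SUR_.base h
  calc n.choose r ≤ n ^ r := Nat.choose_le_pow n r
    _ ≤ (2 ^ pL n) ^ r := Nat.pow_le_pow_left h2.le r
    _ = 2 ^ (pL n * r) := (pow_mul _ _ _).symm

end SQS_

open SQS_ in
theorem p_SQS : T_SQS := by
  intro C0 n₀ u v hn₀ hsup hbig
  obtain ⟨N, hN⟩ := hbig
  refine ⟨max (max n₀ (N ^ 2)) (2 ^ 39), fun n hn => ?_⟩
  have hn0 : n₀ ≤ n := (le_max_left _ _).trans ((le_max_left _ _).trans hn)
  have hnN : N ^ 2 ≤ n := (le_max_right _ _).trans ((le_max_left _ _).trans hn)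
  have h40 : 40 ≤ pL n := Pool.Agent.NRR.SUR_.pL_large n ((le_max_right _ _).trans hn)
  have hterm : ∀ r ∈ Icc (kR n) n, 2 ^ (C0 * pL n * r) * u (n - r) *
      2 ^ (pL n * kR n) ≤ u n := by
    intro r hr
    rw [mem_Icc] at hr
    have g1 := Pool.Agent.NRR.SUR_.big_r h40 hr.1
    have h2 : N ≤ r := by
      by_contra hc
      push Not at hc
      have : r ^ 2 < N ^ 2 := Nat.pow_lt_pow_left hc (by norm_num)
      omega
    have h3 := big C0 (u r) h40 hr.1 (hN r h2)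
    have hch : 0 < n.choose r := Nat.choose_pos hr.2
    refine Nat.le_of_mul_le_mul_left ?_ hch
    calc n.choose r * (2 ^ (C0 * pL n * r) * u (n - r) * 2 ^ (pL n * kR n))
        ≤ 2 ^ (pL n * r) * (2 ^ (C0 * pL n * r) * u (n - r) * 2 ^ (pL n * r)) :=
          Nat.mul_le_mul (choose_le h40) (Nat.mul_le_mul_left _
            (Nat.pow_le_pow_right (by norm_num) (Nat.mul_le_mul_left _ hr.1)))
      _ = 2 ^ ((C0 + 2) * pL n * r) * u (n - r) := by
          rw [show (C0 + 2) * pL n * r = C0 * pL n * r + pL n * r + pL n * r by ring,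
            pow_add, pow_add]
          ring
      _ ≤ u r * u (n - r) := Nat.mul_le_mul_right _ h3
      _ ≤ (r + (n - r)).choose r * u (r + (n - r)) := hsup _ _
      _ = n.choose r * u n := by rw [Nat.add_sub_cancel' hr.2]
  have hsum : v n * 2 ^ (pL n * kR n) ≤ (n + 1) * u n := by
    calc v n * 2 ^ (pL n * kR n)
        ≤ (∑ r ∈ Icc (kR n) n, 2 ^ (C0 * pL n * r) * u (n - r)) *
            2 ^ (pL n * kR n) := Nat.mul_le_mul_right _ (hn₀ n hn0)
      _ = ∑ r ∈ Icc (kR n) n, 2 ^ (C0 * pL n * r) * u (n - r) *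
            2 ^ (pL n * kR n) := by rw [Finset.sum_mul]
      _ ≤ ∑ r ∈ Icc (kR n) n, u n := Finset.sum_le_sum hterm
      _ = (n + 1 - kR n) * u n := by
          rw [Finset.sum_const, Nat.card_Icc, smul_eq_mul]
      _ ≤ (n + 1) * u n := Nat.mul_le_mul_right _ (Nat.sub_le _ _)
  have hnum := Pool.Agent.NRR.SUR_.num h40
  have hsum' : (v n : ℝ) * 2 ^ (pL n * kR n) ≤ ((n : ℝ) + 1) * u n := by
    exact_mod_cast hsum
  have hfin : ((n : ℝ) + 1) * ((2 : ℝ) ^ ((n : ℝ) / Real.logb 2 n ^ 3) *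
      (v n : ℝ)) ≤ ((n : ℝ) + 1) * u n := by
    calc ((n : ℝ) + 1) * ((2 : ℝ) ^ ((n : ℝ) / Real.logb 2 n ^ 3) * (v n : ℝ))
        = (v n : ℝ) * (((n : ℝ) + 1) * (2 : ℝ) ^ ((n : ℝ) / Real.logb 2 n ^ 3)) := by
          ring
      _ ≤ (v n : ℝ) * 2 ^ (pL n * kR n) :=
          mul_le_mul_of_nonneg_left hnum (by positivity)
      _ ≤ _ := hsum'
  exact le_of_mul_le_mul_left hfin (by positivity)

end Pool.Agent.NRX
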