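import Pool.Agent.NRX.Targets

/-!
# NRX, block UNU: types of disjoint unions and joins
-/

set_option autoImplicit false

open Finset Classical

namespace Pool.Agent.NRX

open Pool.Agent Pool.Agent.NRW

namespace UNU_

/-- a member of a class -/
noncomputable def rep {C : HER47.Cls} {n : ℕ} (S : typ C n) : SimpleGraph (Fin n) :=
  Classical.choose S.2

theorem rep_mem {C : HER47.Cls} {n : ℕ} (S : typ C n) : C (Fin n) (rep S) :=
  (Classical.choose_spec S.2).1

theorem rep_eq {C : HER47.Cls} {n : ℕ} (S : typ C n) :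
    S.1 = {G' | Nonempty (rep S ≃g G')} :=
  (Classical.choose_spec S.2).2

theorem eq_of_iso {C : HER47.Cls} {n : ℕ} {S S' : typ C n} (h : Nonempty (rep S ≃g rep S')) :
    S = S' := by
  obtain ⟨φ⟩ := h
  apply Subtype.ext
  rw [rep_eq S, rep_eq S']
  ext G'
  constructor
  · rintro ⟨ψ⟩
    exact ⟨φ.symm.trans ψ⟩
  · rintro ⟨ψ⟩
    exact ⟨φ.trans ψ⟩

theorem main {C : HER47.Cls} (hC : HER47.Her C) {a b : ℕ}
    (j : SimpleGraph (Fin a) → SimpleGraph (Fin b) → SimpleGraph (Fin a ⊕ Fin b))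
    (hj : ∀ G H, C (Fin a) G → C (Fin b) H → C (Fin a ⊕ Fin b) (j G H))
    (hl : ∀ G H x y, (j G H).Adj (Sum.inl x) (Sum.inl y) ↔ G.Adj x y)
    (hr : ∀ G H x y, (j G H).Adj (Sum.inr x) (Sum.inr y) ↔ H.Adj x y) :
    (typ C a).ncard * (typ C b).ncard ≤ (a + b).choose a * (typ C (a + b)).ncard := by
  let e : Fin (a + b) ↪ Fin a ⊕ Fin b := finSumFinEquiv.symm.toEmbedding
  let K : typ C a × typ C b → SimpleGraph (Fin (a + b)) := fun p =>
    (j (rep p.1) (rep p.2)).comap e
  have hK : ∀ p, C (Fin (a + b)) (K p) := fun p =>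
    hC _ _ e _ (hj _ _ (rep_mem p.1) (rep_mem p.2))
  let R : typ C a × typ C b → typ C (a + b) := fun p =>
    ⟨{G' | Nonempty (K p ≃g G')}, K p, hK p, rfl⟩
  have hψ : ∀ p, Nonempty (rep (R p) ≃g K p) := by
    intro p
    have h1 : K p ∈ (R p).1 := ⟨SimpleGraph.Iso.refl⟩
    rw [rep_eq (R p)] at h1
    exact h1
  let ψ : ∀ p, rep (R p) ≃g K p := fun p => Classical.choice (hψ p)
  obtain ⟨ι, hι⟩ : ∃ ι : typ C a × typ C b → (Fin a ⊕ Fin b ≃ Fin (a + b)), ∀ p x y,
      (rep (R p)).Adj (ι p x) (ι p y) ↔ (j (rep p.1) (rep p.2)).Adj x y := by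
    refine ⟨fun p => finSumFinEquiv.trans (ψ p).symm.toEquiv, ?_⟩
    intro p x y
    have h1 : (rep (R p)).Adj (finSumFinEquiv.trans (ψ p).symm.toEquiv x)
        (finSumFinEquiv.trans (ψ p).symm.toEquiv y) ↔
        (K p).Adj (finSumFinEquiv x) (finSumFinEquiv y) :=
      (ψ p).symm.map_adj_iff
    rw [h1]
    simp [K, e]
  let X : typ C a × typ C b → Finset (Fin (a + b)) := fun p =>
    univ.image (fun i : Fin a => ι p (Sum.inl i))
  have hX : ∀ p, X p ∈ powersetCard a (univ : Finset (Fin (a + b))) := by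
    intro p
    rw [mem_powersetCard]
    refine ⟨subset_univ _, ?_⟩
    have hinj : Function.Injective (fun i : Fin a => ι p (Sum.inl i)) := fun x y hxy =>
      Sum.inl_injective ((ι p).injective hxy)
    change (univ.image (fun i : Fin a => ι p (Sum.inl i))).card = a
    rw [card_image_of_injective _ hinj, card_univ, Fintype.card_fin]
  let F : typ C a × typ C b →
      (powersetCard a (univ : Finset (Fin (a + b)))) × typ C (a + b) := fun p =>
    (⟨X p, hX p⟩, R p)
  have hF : Function.Injective F := by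
    intro p p' h
    have hXX : X p = X p' := congrArg (fun q => (q.1 : Finset (Fin (a + b)))) h
    have hRR : R p = R p' := congrArg Prod.snd h
    obtain ⟨τ, hτ⟩ : ∃ τ : Equiv.Perm (Fin a ⊕ Fin b), τ = (ι p).trans (ι p').symm := ⟨_, rfl⟩
    have hmaps : Set.MapsTo τ (Set.range (Sum.inl : Fin a → Fin a ⊕ Fin b))
        (Set.range (Sum.inl : Fin a → Fin a ⊕ Fin b)) := by
      rintro _ ⟨i, rfl⟩
      have h1 : ι p (Sum.inl i) ∈ X p := mem_image_of_mem _ (mem_univ i)
      rw [hXX] at h1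
      obtain ⟨i', _, hi'⟩ := mem_image.1 h1
      refine ⟨i', ?_⟩
      rw [hτ, Equiv.trans_apply, ← hi', Equiv.symm_apply_apply]
    obtain ⟨⟨σ1, σ2⟩, hσ⟩ := Equiv.Perm.mem_sumCongrHom_range_of_perm_mapsTo_inl hmaps
    have hτa : ∀ x, ι p' (τ x) = ι p x := by
      intro x
      rw [hτ, Equiv.trans_apply, Equiv.apply_symm_apply]
    have hσl : ∀ i : Fin a, τ (Sum.inl i) = Sum.inl (σ1 i) := by
      intro i
      rw [← hσ]
      rfl
    have hσr : ∀ i : Fin b, τ (Sum.inr i) = Sum.inr (σ2 i) := by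
      intro i
      rw [← hσ]
      rfl
    have key : ∀ x y, (j (rep p.1) (rep p.2)).Adj x y ↔
        (j (rep p'.1) (rep p'.2)).Adj (τ x) (τ y) := by
      intro x y
      rw [← hι p x y, ← hι p' (τ x) (τ y), hτa, hτa, hRR]
    have h1 : p.1 = p'.1 := by
      apply eq_of_iso
      refine ⟨⟨σ1, ?_⟩⟩
      intro x y
      have := key (Sum.inl x) (Sum.inl y)
      rw [hσl, hσl, hl, hl] at this
      exact this.symm
    have h2 : p.2 = p'.2 := by
      apply eq_of_iso
      refine ⟨⟨σ2, ?_⟩⟩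
      intro x y
      have := key (Sum.inr x) (Sum.inr y)
      rw [hσr, hσr, hr, hr] at this
      exact this.symm
    exact Prod.ext h1 h2
  have h3 := Nat.card_le_card_of_injective F hF
  rw [Nat.card_prod, Nat.card_prod, Nat.card_coe_set_eq, Nat.card_coe_set_eq,
    Nat.card_coe_set_eq, Nat.card_eq_fintype_card, Fintype.card_coe, card_powersetCard,
    card_univ, Fintype.card_fin] at h3
  exact h3

end UNU_

open UNU_ in
theorem p_UNU : T_UNU := by
  intro C hC h a b
  rcases h with h | h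
  · exact main hC (fun G H => G ⊕g H) (fun G H => h (Fin a) (Fin b) G H)
      (fun G H x y => SimpleGraph.sum_adj_inl) (fun G H x y => SimpleGraph.sum_adj_inr)
  · refine main hC (fun G H => (Gᶜ ⊕g Hᶜ)ᶜ) (fun G H => h (Fin a) (Fin b) G H) ?_ ?_
    · intro G H x y
      by_cases hxy : x = y
      · subst hxy
        simp
      · rw [SimpleGraph.compl_adj, SimpleGraph.sum_adj_inl, SimpleGraph.compl_adj]
        simp [hxy]
    · intro G H x y
      by_cases hxy : x = y
      · subst hxy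
        simp
      · rw [SimpleGraph.compl_adj, SimpleGraph.sum_adj_inr, SimpleGraph.compl_adj]
        simp [hxy]

end Pool.Agent.NRX
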