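import Pool.Agent.NRR.All
import Pool.Agent.NRX.Final
import Pool.Agent.NRX.P_FXM
import Pool.Agent.NRX.P_FXZ
import Pool.Agent.NRX.P_FXD
import Pool.Agent.NRX.P_EQM
import Pool.Agent.NRX.P_EQZ
import Pool.Agent.NRX.P_GAV
import Pool.Agent.NRX.P_LSZ
import Pool.Agent.NRX.P_AVU
import Pool.Agent.NRX.P_DOU
import Pool.Agent.NRX.P_ALU
import Pool.Agent.NRX.P_UNU
import Pool.Agent.NRX.P_SQS
import Pool.Agent.NRX.P_SQI
import Pool.Agent.NRX.P_FIU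
import Pool.Agent.NRW.P_CTY

/-!
# NRX: composition
-/

set_option autoImplicit false

namespace Pool.Agent.NRX

open Pool.Agent

theorem a_FXZ : T_FXZ := p_FXZ (NRR.p_RSZ NRR.p_HNZ) NRR.p_INZ

theorem a_AVU : T_AVU := p_AVU p_GAV p_LSZ NRR.a_HLR p_FXM a_FXZ p_EQM p_EQZ

theorem a_DOU : T_DOU := p_DOU p_LSZ p_FXD

theorem a_ALU : T_ALU := p_ALU a_AVU a_DOU NRR.p_NBR NRM.p_MAX

theorem a_FIU : T_FIU := p_FIU a_ALU p_UNU p_SQS p_SQI NRW.p_CTY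

end Pool.Agent.NRX
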