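import Pool.Agent.NRX.Targets

/-! NRX-FIU: combination. -/

set_option autoImplicit false

open Finset Classical

namespace Pool.Agent.NRX

open Pool.Agent Pool.Agent.Lib.Recon Pool.Agent.RNB Pool.Agent.NRC Pool.Agent.NRM
  Pool.Agent.NRP Pool.Agent.NRR Pool.Agent.NRW

namespace FIU_

lemma key (h5 : NRW.T_CTY) (C0 : ℕ) (C : HER47.Cls) (n : ℕ) (hn : 1 ≤ n)
    (hB : Big3 (8 * ((C0 : ℝ) + 2) + 1) C n) :
    (n : ℝ) ^ (8 * ((C0 : ℝ) + 2) * n) ≤ ((typ C n).ncard : ℝ) := by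
  have hn0 : (0 : ℝ) < n := by exact_mod_cast hn
  unfold Big3 at hB
  have h := h5 C n
  have h' : (HER47.cn C n : ℝ) ≤ (n : ℝ) ^ n * ((typ C n).ncard : ℝ) := by exact_mod_cast h
  have e1 : (n : ℝ) ^ ((8 * ((C0 : ℝ) + 2) + 1) * n) =
      (n : ℝ) ^ n * (n : ℝ) ^ (8 * ((C0 : ℝ) + 2) * n) := by
    rw [← Real.rpow_natCast (n : ℝ) n, ← Real.rpow_add hn0]
    congr 1
    ring
  have hp : (0 : ℝ) < (n : ℝ) ^ n := pow_pos hn0 n
  have h2 : (n : ℝ) ^ n * (n : ℝ) ^ (8 * ((C0 : ℝ) + 2) * n) ≤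
      (n : ℝ) ^ n * ((typ C n).ncard : ℝ) := by
    rw [← e1]
    exact hB.trans h'
  exact le_of_mul_le_mul_left h2 hp

end FIU_

theorem p_FIU (h1 : T_ALU) (h2 : T_UNU) (h3 : T_SQS) (h4 : T_SQI) (h5 : NRW.T_CTY) : T_FIU := by
  obtain ⟨C0, n0, hA⟩ := h1
  refine ⟨8 * ((C0 : ℝ) + 2) + 1, by positivity, ?_, ?_⟩
  · intro C hC hU hB
    obtain ⟨N, hN⟩ := hB
    refine h3 C0 n0 (fun n => (typ C n).ncard) (fun n => (btyp C n).ncard)
      (fun n hn => hA C hC n hn) (fun a b => h2 C hC hU a b) ⟨max N 1, fun n hn => ?_⟩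
    exact FIU_.key h5 C0 C n ((le_max_right _ _).trans hn) (hN n ((le_max_left _ _).trans hn))
  · intro C hC hB
    refine h4 C0 n0 (fun n => (typ C n).ncard) (fun n => (btyp C n).ncard)
      (fun n hn => hA C hC n hn) (fun N => ?_)
    obtain ⟨n, hn, hb⟩ := hB (max N 1)
    exact ⟨n, (le_max_left _ _).trans hn, FIU_.key h5 C0 C n ((le_max_right _ _).trans hn) hb⟩

end Pool.Agent.NRX
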