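import Pool.Agent.NRW.Targets

/-!
# NRX: almost all isomorphism types of members of a superfactorial hereditary class

Project NRX (MP_552896_co, owner helper48): the unlabelled form of project NRR. `typ C n`,
`btyp C n` (NRW/Targets.lean): the isomorphism types of the members, and of the non-reconstructible
members, of `C` with `n` vertices. One file per target: `Pool/Agent/NRX/P_X.lean`, theorem
`Pool.Agent.NRX.p_X (other targets) : T_X`; the targets after `from` are the hypotheses.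
-/

set_option autoImplicit false

open Finset Classical

namespace Pool.Agent.NRX

open Pool.Agent Pool.Agent.Lib.Recon Pool.Agent.RNB Pool.Agent.NRC Pool.Agent.NRM
  Pool.Agent.NRP Pool.Agent.NRR Pool.Agent.NRW

/-- `H` without `Z` is isomorphic to `G` without `Z0` (and `|Z| = |Z0|`) -/
def SetIso {V : Type} [Fintype V] (G H : SimpleGraph V) (Z0 Z : Finset V) : Prop :=
  ∃ σ : V ≃ V, Z.image σ = Z0 ∧ ∀ x y, x ∉ Z → y ∉ Z → (H.Adj x y ↔ G.Adj (σ x) (σ y))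

/-! ## A. counting codes for a fixed graph outside `Z` -/

/-- FXM. PROOF. Edit of `Pool/Agent/NRM/P_CTM.lean` (the part for a fixed `Z`): instead of
`G.comap e` being equal the graphs agree with `F` outside `Z` by hypothesis, and the map
`K ↦ (w, u1, u2, b, S)` restricted to `Z` is injective. -/
def T_FXM : Prop := ∀ (n g M : ℕ) (F : SimpleGraph (Fin n)) (A Z : Finset (Fin n)),
  (univ.filter (fun K : SimpleGraph (Fin n) =>
    (∀ x y, x ∉ Z → y ∉ Z → (K.Adj x y ↔ F.Adj x y)) ∧ GdM K g M A Z)).card ≤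
    (2 * n ^ 3 * 2 ^ M) ^ Z.card

/-- FXZ (from NRR.T_RSZ, NRR.T_INZ). PROOF. Edit of `fixZ` in `Pool/Agent/NRR/P_CTZ.lean` (see
FXM). -/
def T_FXZ : Prop := ∀ (n g h q d s : ℕ) (F : SimpleGraph (Fin n)) (A Z : Finset (Fin n)),
  (univ.filter (fun K : SimpleGraph (Fin n) =>
    (∀ x y, x ∉ Z → y ∉ Z → (K.Adj x y ↔ F.Adj x y)) ∧ CdM K g h q d s A Z)).card ≤
    (2 * n ^ 2 * (2 * (h + h * (4 * g) * d + q * d + 1) ^ s + 1) ^ d) ^ Z.card

/-- FXD. PROOF. Edit of `Pool/Agent/HER47/P_CODE.lean` (`code_inj` there): the map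
`G ↦ (m v, b v, Z v)_{v ∉ M}` is injective on the graphs which agree with `F` on `M`. -/
def T_FXD : Prop := ∀ (n K : ℕ) (F : SimpleGraph (Fin n)) (M : Finset (Fin n)),
  (univ.filter (fun G : SimpleGraph (Fin n) =>
    (∀ x y, x ∈ M → y ∈ M → (G.Adj x y ↔ F.Adj x y)) ∧ HER47.Dom K G M)).card ≤
    (2 * n * (n + 1) ^ K) ^ (n - M.card)

/-! ## B. invariance -/

/-- EQM: invariance of `GdM`. PROOF. As `Pool/Agent/NRQ/P_EQ1.lean`, `NRC/P_EQV.lean`:
`sz K (A.image σ) (Z.image σ) (σ z) (σ y) = (sz H A Z z y).image σ`, so `Ars`, `BRs` are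
transported; the new functions are `σ ∘ w ∘ σ.symm`, ..., `S' v = (S (σ.symm v)).image σ`. -/
def T_EQM : Prop := ∀ (V : Type) [Fintype V] (H K : SimpleGraph V) (σ : V ≃ V) (g M : ℕ)
  (A Z : Finset V), (∀ x y, H.Adj x y ↔ K.Adj (σ x) (σ y)) → GdM H g M A Z →
  GdM K g M (A.image σ) (Z.image σ)

/-- EQZ: invariance of `CdM`. PROOF. As `Pool/Agent/NRQ/P_EQQ.lean` (there `Z = {v}`): all notions
of `Pool/Agent/NRR/Defs.lean` used in `RSz` are transported by `σ`; the new functions are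
`σ ∘ w ∘ σ.symm`, ..., `D' v = (D (σ.symm v)).image σ`. -/
def T_EQZ : Prop := ∀ (V : Type) [Fintype V] (H K : SimpleGraph V) (σ : V ≃ V)
  (g h q d s : ℕ) (A Z : Finset V), (∀ x y, H.Adj x y ↔ K.Adj (σ x) (σ y)) →
  CdM H g h q d s A Z → CdM K g h q d s (A.image σ) (Z.image σ)

/-! ## C. averaging -/

/-- GAV (edit of `Pool/Agent/NRW/P_AVS.lean`, `Z` in place of `v`). PROOF. For `i` a pigeonhole
over the `(card V).choose |Z0|` sets `Z` with `|Z| = |Z0|` gives `Z i` with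
`|Ω| ≤ 2 * (choose) * #{p | P (H i) (Bi ∅ p.2 p.1) (Z i)}` (if there is no such set at all then
`|Ω| ≤ 0`, impossible). `j i`, `σ i` from the hypothesis for `Z i`; `K i = (H i).comap (σ i).symm`
agrees with `G (j i)` off `Z0`; `P (H i) A (Z i)` gives `P (K i) (A.image (σ i)) Z0`; `K` is
injective. For fixed `p` at most `|J| * B` of the `i` have `P (K i) (Bi ∅ p.2 p.1) Z0`. Double
counting. -/
def T_GAV : Prop := ∀ (V ι J : Type) [Fintype V] [Fintype ι] [Fintype J]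
  (G : J → SimpleGraph V) (Z0 : Finset V) (H : ι → SimpleGraph V) (N B : ℕ)
  (P : SimpleGraph V → Finset V → Finset V → Prop),
  1 ≤ N → Nonempty V → (∀ i, ∀ Z : Finset V, Z.card = Z0.card → ∃ j, SetIso (G j) (H i) Z0 Z) →
  Pni H →
  (∀ (H K : SimpleGraph V) (σ : V ≃ V) (A Z : Finset V),
    (∀ x y, H.Adj x y ↔ K.Adj (σ x) (σ y)) → P H A Z → P K (A.image σ) (Z.image σ)) →
  (∀ (F : SimpleGraph V) (A : Finset V), (univ.filter (fun K : SimpleGraph V =>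
    (∀ x y, x ∉ Z0 → y ∉ Z0 → (K.Adj x y ↔ F.Adj x y)) ∧ P K A Z0)).card ≤ B) →
  (∀ i, Fintype.card (Fin N × (Fin N → V)) ≤ 2 * (univ.filter
    (fun p : Fin N × (Fin N → V) => ∃ Z, Z.card = Z0.card ∧
      P (H i) (Bi ∅ p.2 p.1) Z)).card) →
  Fintype.card ι ≤ 2 * (Fintype.card V).choose Z0.card * (Fintype.card J * B)

/-- LSZ: the types with `n - k` vertices as a list. PROOF. `Z0` = the last `k` vertices,
`e0 : Fin (n - k) ↪ Fin n` with range `Z0ᶜ`; `G j` = the image under `e0` of a member of `C` in the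
class `j` (`SimpleGraph.map`, `Exists.choose`). For `H` in `C`, `|Z| = k`, let `e` be an embedding
`Fin (n - k) ↪ Fin n` with range `Zᶜ`; `H.comap e` is in `C` (`Her`), `j` its class, so there is an
isomorphism `φ` of `H.comap e` and the member of the class `j`; `σ` = `e a ↦ e0 (φ a)`, extended
by a bijection `Z → Z0`. -/
def T_LSZ : Prop := ∀ C : HER47.Cls, HER47.Her C → ∀ n k : ℕ, k ≤ n →
  ∃ (Z0 : Finset (Fin n)) (G : {S // S ∈ typ C (n - k)} → SimpleGraph (Fin n)), Z0.card = k ∧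
    ∀ H : SimpleGraph (Fin n), C (Fin n) H → ∀ Z : Finset (Fin n), Z.card = k →
      ∃ j, SetIso (G j) H Z0 Z

/-- AVU (from GAV, LSZ, NRR.T_HLR, FXM, FXZ, EQM, EQZ; model: `Pool/Agent/NRR/P_AVR.lean` and
`Pool/Agent/NRW/P_BNS.lean`, `P_HCU.lean`). PROOF. `k = kR n`, `ι` = the subtype of the set on the
left, `H i` a graph as there; GAV with `N = pN n` (NRC.T_NPA: `1 ≤ N`), `P K A Z` = the two
alternatives of `GZ` without `∃ Z`, `B = XR n ^ k ≥ x^k + y^k` (FXM, FXZ). -/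
def T_AVU : Prop := ∃ n0 : ℕ, ∀ C : HER47.Cls, HER47.Her C → ∀ n : ℕ, n0 ≤ n →
  {S | ∃ G : SimpleGraph (Fin n), C (Fin n) G ∧ ¬ HER47.Rec G ∧
    (∃ Y : Finset (Fin n), Y.card ≤ kR n ∧ Far G KK Y) ∧
    S = {G' : SimpleGraph (Fin n) | Nonempty (G ≃g G')}}.ncard ≤
    2 * (n.choose (kR n) * ((typ C (n - kR n)).ncard * XR n ^ (kR n)))

/-- DOU (from LSZ, FXD). PROOF. For a type `S` on the left take `G`, `M`; `Z = Mᶜ`, `|Z| = r`; LSZ
gives `j`, `σ`; the graph `K = G.comap σ.symm` is in the class `S`, agrees with `G j` on `Z0ᶜ`, and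
`Dom K0 K Z0ᶜ` (`ds` is transported by `σ`, `M.image σ = Z0ᶜ`). `S ↦ (j, K)` is injective; for
given `j` at most `(2 n (n + 1)^K0)^r` graphs (FXD, `|Z0ᶜ| = n - r`). -/
def T_DOU : Prop := ∀ C : HER47.Cls, HER47.Her C → ∀ n K r : ℕ, r ≤ n →
  {S | ∃ G : SimpleGraph (Fin n), C (Fin n) G ∧
    (∃ M : Finset (Fin n), M.card = n - r ∧ HER47.Dom K G M) ∧
    S = {G' : SimpleGraph (Fin n) | Nonempty (G ≃g G')}}.ncard ≤
    (typ C (n - r)).ncard * (2 * n * (n + 1) ^ K) ^ r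

/-- ALU (from AVU, DOU, NRR.T_NBR, NRM.T_MAX). PROOF. Edit of `Pool/Agent/NRR/P_ALR.lean`
(`bound1`, `bound2` there): `btyp C n` is covered by the set of AVU and, for
`kR n < r ≤ n`, the sets of DOU with `K = KK`. -/
def T_ALU : Prop := ∃ C0 n0 : ℕ, ∀ C : HER47.Cls, HER47.Her C → ∀ n : ℕ, n0 ≤ n →
  (btyp C n).ncard ≤ ∑ r ∈ Icc (kR n) n, 2 ^ (C0 * pL n * r) * (typ C (n - r)).ncard

/-! ## D. unions and conclusions -/

/-- UNU. PROOF. Choose representatives. For `S ∈ typ C a`, `T ∈ typ C b` the disjoint union (or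
join) of the representatives, moved to `Fin (a + b)` by `finSumFinEquiv`, is in `C` (`Her`); let
`f (S, T) ∈ typ C (a + b)` be its class. For a class `R` with representative `K` the pairs
`(S, T)` with `f (S, T) = R` are determined by a subset `X` of `Fin (a + b)` with `a` elements (the
image of the first `a` vertices under an isomorphism to `K`): `S` is the class of `K` induced on
`X`, `T` the class of `K` induced on `Xᶜ` (moved to `Fin a`, `Fin b` by any bijections). So every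
fibre of `f` has at most `(a + b).choose a` elements. -/
def T_UNU : Prop := ∀ C : HER47.Cls, HER47.Her C →
  ((∀ (V W : Type) [Finite V] [Finite W] (G : SimpleGraph V) (H : SimpleGraph W),
    C V G → C W H → C (V ⊕ W) (G ⊕g H)) ∨
  (∀ (V W : Type) [Finite V] [Finite W] (G : SimpleGraph V) (H : SimpleGraph W),
    C V G → C W H → C (V ⊕ W) ((Gᶜ ⊕g Hᶜ)ᶜ))) →
  ∀ a b : ℕ, (typ C a).ncard * (typ C b).ncard ≤ (a + b).choose a * (typ C (a + b)).ncard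

/-- SQS: sequences (edit of `Pool/Agent/NRR/P_SUR.lean`, `u = cn C`, `v = bn C`). PROOF. `k = kR
n`, `L = pL n`; for `r ≥ k`, `n` large: `log r ≥ L / 4`, so `u r ≥ 2^((C0 + 2) L r)`; as
`n.choose r ≤ 2^(L r)`, each term times `2^(L k) * n.choose r` is at most `u r * u (n - r) ≤
n.choose r * u n` (`n = r + (n - r)`), so `v n * 2^(L k) ≤ (n + 1) * u n`; end as in
`P_SUR.lean`. -/
def T_SQS : Prop := ∀ (C0 n0 : ℕ) (u v : ℕ → ℕ),
  (∀ n : ℕ, n0 ≤ n → v n ≤ ∑ r ∈ Icc (kR n) n, 2 ^ (C0 * pL n * r) * u (n - r)) →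
  (∀ a b : ℕ, u a * u b ≤ (a + b).choose a * u (a + b)) →
  (∃ N : ℕ, ∀ n : ℕ, N ≤ n → (n : ℝ) ^ (8 * ((C0 : ℝ) + 2) * n) ≤ (u n : ℝ)) →
  ∃ N : ℕ, ∀ n : ℕ, N ≤ n →
    (2 : ℝ) ^ ((n : ℝ) / Real.logb 2 n ^ 3) * (v n : ℝ) ≤ (u n : ℝ)

/-- SQI: sequences (edit of `Pool/Agent/NRR/P_INR.lean`, `u = cn C`, `v = bn C`; nothing else about
`C` is used there). -/
def T_SQI : Prop := ∀ (C0 n0 : ℕ) (u v : ℕ → ℕ),
  (∀ n : ℕ, n0 ≤ n → v n ≤ ∑ r ∈ Icc (kR n) n, 2 ^ (C0 * pL n * r) * u (n - r)) →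
  (∀ N : ℕ, ∃ n : ℕ, N ≤ n ∧ (n : ℝ) ^ (8 * ((C0 : ℝ) + 2) * n) ≤ (u n : ℝ)) →
  ∀ N : ℕ, ∃ n : ℕ, N ≤ n ∧
    (2 : ℝ) ^ ((n : ℝ) / Real.logb 2 n ^ 3) * (v n : ℝ) ≤ (u n : ℝ)

/-- FIU (from ALU, UNU, SQS, SQI, NRW.T_CTY). PROOF. `A0 = 8 (C0 + 2) + 1`; by CTY
`|typ C n| ≥ cn C n / n^n ≥ n^(8 (C0 + 2) n)` if `Big3 A0 C n`, `n ≥ 1`. SQS and SQI with
`u n = |typ C n|`, `v n = |btyp C n|`. -/
def T_FIU : Prop := ∃ A0 : ℝ, 0 < A0 ∧
  (∀ C : HER47.Cls, HER47.Her C →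
    ((∀ (V W : Type) [Finite V] [Finite W] (G : SimpleGraph V) (H : SimpleGraph W),
      C V G → C W H → C (V ⊕ W) (G ⊕g H)) ∨
    (∀ (V W : Type) [Finite V] [Finite W] (G : SimpleGraph V) (H : SimpleGraph W),
      C V G → C W H → C (V ⊕ W) ((Gᶜ ⊕g Hᶜ)ᶜ))) →
    (∃ N : ℕ, ∀ n : ℕ, N ≤ n → Big3 A0 C n) → ∃ N : ℕ, ∀ n : ℕ, N ≤ n →
      (2 : ℝ) ^ ((n : ℝ) / Real.logb 2 n ^ 3) * ((btyp C n).ncard : ℝ) ≤
        ((typ C n).ncard : ℝ)) ∧
  (∀ C : HER47.Cls, HER47.Her C → (∀ N : ℕ, ∃ n : ℕ, N ≤ n ∧ Big3 A0 C n) →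
    ∀ N : ℕ, ∃ n : ℕ, N ≤ n ∧
      (2 : ℝ) ^ ((n : ℝ) / Real.logb 2 n ^ 3) * ((btyp C n).ncard : ℝ) ≤
        ((typ C n).ncard : ℝ))

end Pool.Agent.NRX
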